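import Mathlib

/-!
# Project TZ, quaternionic case: a composition algebra which contains three orthonormal vectors contains the quaternions
-/

set_option autoImplicit false

open scoped Quaternion

namespace Pool.Agent.Helper77.TZ4

/-- the linear map with `1, i, j, k ↦ e, x, y, z` -/
noncomputable def qmap {E : Type*} [AddCommGroup E] [Module ℝ E] (e x y z : E) : ℍ[ℝ] →ₗ[ℝ] E where
  toFun a := a.re • e + a.imI • x + a.imJ • y + a.imK • z
  map_add' a b := by
    rw [Quaternion.re_add, Quaternion.imI_add, Quaternion.imJ_add, Quaternion.imK_add]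
    module
  map_smul' t a := by
    rw [Quaternion.re_smul, Quaternion.imI_smul, Quaternion.imJ_smul, Quaternion.imK_smul, RingHom.id_apply]
    simp only [smul_eq_mul]
    module

theorem qmap_apply {E : Type*} [AddCommGroup E] [Module ℝ E] (e x y z : E) (a : ℍ[ℝ]) :
    qmap e x y z a = a.re • e + a.imI • x + a.imJ • y + a.imK • z := rfl

theorem exists_psi {E : Type*} [AddCommGroup E] [Module ℝ E] (V : Submodule ℝ E) (p : E →ₗ[ℝ] E →ₗ[ℝ] E) (β : E →ₗ[ℝ] E →ₗ[ℝ] ℝ)
    (e i j : E) (he : e ∈ V) (hi : i ∈ V) (hj : j ∈ V) (hV : ∀ u ∈ V, ∀ v ∈ V, p u v ∈ V)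
    (symm : ∀ u ∈ V, ∀ v ∈ V, β u v = β v u) (pe : ∀ v ∈ V, p e v = v) (ep : ∀ v ∈ V, p v e = v)
    (alt : ∀ u ∈ V, ∀ u' ∈ V, β e u = 0 → β e u' = 0 → ∀ v ∈ V, p u' (p u v) + p u (p u' v) = -(2 * β u' u) • v)
    (nm : ∀ u ∈ V, ∀ u' ∈ V, ∀ v ∈ V, β (p u v) (p u' v) = β u u' * β v v)
    (ee : β e e = 1) (ii : β i i = 1) (jj : β j j = 1) (ei : β e i = 0) (ej : β e j = 0) (ij : β i j = 0) :
    ∃ ψ : ℍ[ℝ] →ₗ[ℝ] E, ψ 1 = e ∧ (∀ a, ψ a ∈ V) ∧ (∀ a b, ψ (a * b) = p (ψ a) (ψ b)) ∧
      (∀ a b, β (ψ a) (ψ b) = (a * star b).re) := by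
  obtain ⟨k, hk⟩ : ∃ k, k = p i j := ⟨_, rfl⟩
  have hkV : k ∈ V := by rw [hk]; exact hV i hi j hj
  have sq : ∀ u ∈ V, β e u = 0 → β u u = 1 → ∀ v ∈ V, p u (p u v) = -v := by
    intro u hu h1 h2 v hv
    have h3 := alt u hu u hu h1 h1 v hv
    rw [h2, mul_one, ← two_smul ℝ, neg_smul, ← smul_neg] at h3
    exact smul_right_injective E (two_ne_zero' ℝ) h3
  have sq1 : ∀ u ∈ V, β e u = 0 → β u u = 1 → p u u = -e := by
    intro u hu h1 h2
    have := sq u hu h1 h2 e he
    rwa [ep u hu] at this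
  have ac : ∀ u ∈ V, ∀ u' ∈ V, β e u = 0 → β e u' = 0 → β u' u = 0 → ∀ v ∈ V, p u' (p u v) = -p u (p u' v) := by
    intro u hu u' hu' h1 h2 h3 v hv
    have h4 := alt u hu u' hu' h1 h2 v hv
    rw [h3, mul_zero, neg_zero, zero_smul] at h4
    exact eq_neg_of_add_eq_zero_left h4
  have ac1 : ∀ u ∈ V, ∀ u' ∈ V, β e u = 0 → β e u' = 0 → β u' u = 0 → p u' u = -p u u' := by
    intro u hu u' hu' h1 h2 h3
    have := ac u hu u' hu' h1 h2 h3 e he
    rwa [ep u hu, ep u' hu'] at this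
  have ji : β j i = 0 := by rw [symm j hj i hi, ij]
  have pji : p j i = -k := by rw [hk]; exact ac1 i hi j hj ei ej ji
  have pii : p i i = -e := sq1 i hi ei ii
  have pjj : p j j = -e := sq1 j hj ej jj
  have pik : p i k = -j := by rw [hk]; exact sq i hi ei ii j hj
  have pjk : p j k = i := by
    have h1 : p j (p j i) = -i := sq j hj ej jj i hi
    rw [pji, map_neg, neg_inj] at h1
    exact h1
  have kk : β k k = 1 := by
    rw [hk, nm i hi i hi j hj, ii, jj, mul_one]
  have ek : β e k = 0 := by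
    have h1 : β (p i j) (p j j) = 0 := by rw [nm i hi j hj j hj, ij, zero_mul]
    rw [← hk, pjj, map_neg, neg_eq_zero] at h1
    rw [symm e he k hkV, h1]
  have ik : β i k = 0 := by
    have h1 : β (p j i) (p e i) = 0 := by rw [nm j hj e he i hi, symm j hj e he, ej, zero_mul]
    rw [pji, pe i hi, map_neg, LinearMap.neg_apply, neg_eq_zero] at h1
    rw [symm i hi k hkV, h1]
  have jk : β j k = 0 := by
    have h1 : β (p i j) (p e j) = 0 := by rw [nm i hi e he j hj, symm i hi e he, ei, zero_mul]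
    rw [← hk, pe j hj] at h1
    rw [symm j hj k hkV, h1]
  have ki : β k i = 0 := by rw [symm k hkV i hi, ik]
  have kj : β k j = 0 := by rw [symm k hkV j hj, jk]
  have pki : p k i = j := by
    have := ac1 i hi k hkV ei ek ki
    rw [pik, neg_neg] at this
    exact this
  have pkj : p k j = -i := by
    have := ac1 j hj k hkV ej ek kj
    rw [pjk] at this
    exact this
  have pkk : p k k = -e := sq1 k hkV ek kk
  refine ⟨qmap e i j k, ?_, ?_, ?_, ?_⟩
  · rw [qmap_apply]
    simp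
  · intro a
    rw [qmap_apply]
    exact V.add_mem (V.add_mem (V.add_mem (V.smul_mem _ he) (V.smul_mem _ hi)) (V.smul_mem _ hj)) (V.smul_mem _ hkV)
  · intro a b
    rw [qmap_apply, qmap_apply, qmap_apply]
    simp only [map_add, map_smul, LinearMap.add_apply, LinearMap.smul_apply, pii, pjj, pkk, pji, pik, pjk, pki, pkj, ← hk,
      pe e he, pe i hi, pe j hj, pe k hkV, ep i hi, ep j hj, ep k hkV]
    simp only [Quaternion.re_mul, Quaternion.imI_mul, Quaternion.imJ_mul, Quaternion.imK_mul]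
    module
  · intro a b
    rw [qmap_apply, qmap_apply]
    simp only [map_add, map_smul, LinearMap.add_apply, LinearMap.smul_apply, smul_eq_mul, ee, ii, jj, kk, ei, ej, ek, ij, ji, ik, ki,
      jk, kj, symm i hi e he, symm j hj e he, symm k hkV e he]
    simp only [Quaternion.re_mul, Quaternion.re_star, Quaternion.imI_star, Quaternion.imJ_star, Quaternion.imK_star]
    ring

end Pool.Agent.Helper77.TZ4
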