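import Pool.Agent.Helper77.TZ4.Frame
import Pool.Agent.Helper77.TZ4.Quat

/-!
# Project TZ, quaternionic case: existence of the data, root spaces of dimension four
-/

set_option autoImplicit false

open Matrix
open scoped Quaternion

namespace Pool.Agent.Helper77.TZ4

open Pool.Agent.Helper96.SA Pool.Agent.Helper96.TO Pool.Agent.Helper69.SLN Pool.Agent.Helper77.TZ2

variable {L : Type} [LieRing L] [LieAlgebra ℝ L] {N : ℕ} {θ : L ≃ₗ⁅ℝ⁆ L} {b : Module.Basis (Fin N) ℝ L} {A : Submodule ℝ L}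
  {r : ℕ} {τ : Module.Dual ℝ A ≃ₗ[ℝ] A} {B : Module.Basis (Fin r) ℝ (Module.Dual ℝ A)} {q : ℝ}

/-- the root space as a submodule -/
def wsp (A : Submodule ℝ L) (φ : Module.Dual ℝ A) : Submodule ℝ L where
  carrier := {x | Wv A φ x}
  add_mem' := by
    intro x y hx hy h
    rw [lie_add, hx h, hy h, smul_add]
  zero_mem' := by
    intro h
    rw [lie_zero, smul_zero]
  smul_mem' := by
    intro c x hx h
    rw [lie_smul, hx h, smul_comm]

/-- a third vector -/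
theorem exists_third (c : Ctx θ b A τ B q) {φ : Module.Dual ℝ A} (hd : 2 < Module.finrank ℝ (wsp A φ)) (x x' : L) :
    ∃ y : L, Wv A φ y ∧ killingForm ℝ L y (θ y) = -(2 / q) ∧ killingForm ℝ L x (θ y) = 0 ∧ killingForm ℝ L x' (θ y) = 0 := by
  have hq := c.qpos
  have hF : Module.Finite ℝ L := Module.Finite.of_basis b
  let f : wsp A φ →ₗ[ℝ] ℝ × ℝ := (((killingForm ℝ L x) ∘ₗ (θ : L →ₗ[ℝ] L)).prod ((killingForm ℝ L x') ∘ₗ (θ : L →ₗ[ℝ] L))) ∘ₗ (wsp A φ).subtype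
  have h1 : LinearMap.ker f ≠ ⊥ := by
    refine LinearMap.ker_ne_bot_of_finrank_lt ?_
    rw [Module.finrank_prod, Module.finrank_self]
    exact hd
  obtain ⟨y, hy, hy0⟩ := Submodule.exists_mem_ne_zero_of_ne_bot h1
  have hy1 : (killingForm ℝ L x (θ y), killingForm ℝ L x' (θ y)) = (0, 0) := LinearMap.mem_ker.1 hy
  obtain ⟨t, -, ht⟩ := exists_scale c (s := 2 / q) (show Wv A φ (y : L) from y.2) (fun h0 => hy0 (Subtype.ext h0)) (by positivity)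
  refine ⟨t • (y : L), (show Wv A φ (y : L) from y.2).smul t, ht, ?_, ?_⟩
  · rw [map_smul, map_smul, (Prod.mk.inj hy1).1, smul_zero]
  · rw [map_smul, map_smul, (Prod.mk.inj hy1).2, smul_zero]

theorem kf_symm (c : Ctx θ b A τ B q) (u v : L) : killingForm ℝ L u (θ v) = killingForm ℝ L v (θ u) := by
  rw [← kf_theta θ u (θ v), c.h.invol, kf_comm]

theorem kf_zero (c : Ctx θ b A τ B q) {u : L} (h : killingForm ℝ L u (θ u) = 0) : u = 0 := by
  by_contra hu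
  have := pos c.h hu
  rw [h] at this
  norm_num at this

/-- The data exist. -/
theorem exists_good (c : Ctx θ b A τ B q) {j0 k0 : Fin r} (h0 : j0 ≠ k0) (hd : Module.finrank ℝ (wsp A (B j0)) = 4) :
    ∃ X : Fin r → ℍ[ℝ] →ₗ[ℝ] L, Good c X := by
  have hq := c.qpos
  obtain ⟨x, f⟩ := exists_fr c
  obtain ⟨i, hi, hin, hei, -⟩ := exists_third c (φ := B j0) (by omega) (x j0) (x j0)
  obtain ⟨j, hj, hjn, hej, hij⟩ := exists_third c (φ := B j0) (by omega) (x j0) i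
  -- `Ff`, `Gg`
  obtain ⟨z, hz⟩ : ∃ z, z = ⁅-θ (x j0), x k0⁆ := ⟨_, rfl⟩
  obtain ⟨z', hz'⟩ : ∃ z', z' = ⁅-θ (x k0), x j0⁆ := ⟨_, rfl⟩
  have wz : Wv A (B k0 - B j0) z := by rw [hz]; exact f.wE j0 k0 (f.w k0)
  have wz' : Wv A (B j0 - B k0) z' := by rw [hz']; exact f.wE k0 j0 (f.w j0)
  have hF : ∀ v, Fr.F θ x j0 k0 v = ⁅v, z⁆ := fun v => by rw [Fr.F_ne (Ne.symm h0), hz]
  have wF : ∀ v, Wv A (B j0) v → Wv A (B k0) ⁅v, z⁆ := by
    intro v hv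
    have := hv.lie wz
    rwa [add_sub_cancel] at this
  have wG : ∀ v, Wv A (B k0) v → Wv A (B j0) ⁅v, z'⁆ := by
    intro v hv
    have := hv.lie wz'
    rwa [add_sub_cancel] at this
  have GF : ∀ v, Wv A (B j0) v → ⁅⁅v, z⁆, z'⁆ = v := by
    intro v hv
    have := f.cons (Ne.symm h0) hv
    rwa [hF, ← hz', Fr.F_self] at this
  have nG : ∀ v v', Wv A (B k0) v → Wv A (B k0) v' → killingForm ℝ L ⁅v, z'⁆ (θ ⁅v', z'⁆) = killingForm ℝ L v (θ v') := by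
    intro v v' hv hv'
    rw [hz']
    exact f.rn (Ne.symm h0) hv hv'
  have nF : ∀ v v', Wv A (B j0) v → Wv A (B j0) v' → killingForm ℝ L ⁅v, z⁆ (θ ⁅v', z⁆) = killingForm ℝ L v (θ v') := by
    intro v v' hv hv'
    rw [hz]
    exact f.rn h0 hv hv'
  have iG : ∀ v v', Wv A (B k0) v → Wv A (B k0) v' → ⁅v, z'⁆ = ⁅v', z'⁆ → v = v' := by
    intro v v' hv hv' h
    have w1 : Wv A (B k0) (v - v') := by
      rw [sub_eq_add_neg]
      intro a
      rw [lie_add, hv a, hv'.neg a, smul_add]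
    have h1 : killingForm ℝ L (v - v') (θ (v - v')) = 0 := by
      rw [← nG _ _ w1 w1, sub_lie, h, sub_self, map_zero, LinearMap.zero_apply]
    exact sub_eq_zero.1 (kf_zero c h1)
  have FG : ∀ v, Wv A (B k0) v → ⁅⁅v, z'⁆, z⁆ = v := by
    intro v hv
    exact iG _ _ (wF _ (wG _ hv)) hv (GF _ (wG _ hv))
  have nT : ∀ v, Wv A (B j0) v → killingForm ℝ L ⁅-θ (x j0), ⁅v, z⁆⁆ (θ ⁅-θ (x j0), ⁅v, z⁆⁆) = killingForm ℝ L v (θ v) := by
    intro v hv
    rw [f.Tn h0 (wF v hv), nF v v hv hv]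
  -- the product
  let P : L →ₗ[ℝ] L →ₗ[ℝ] L := LinearMap.mk₂ ℝ (fun u v => ⁅⁅u, ⁅-θ (x j0), ⁅v, z⁆⁆⁆, z'⁆)
    (fun u u' v => by rw [add_lie, add_lie]) (fun t u v => by rw [smul_lie, smul_lie])
    (fun u v v' => by rw [add_lie, lie_add, lie_add, add_lie]) (fun t u v => by rw [smul_lie, lie_smul, lie_smul, smul_lie])
  have hP : ∀ u v, P u v = ⁅⁅u, ⁅-θ (x j0), ⁅v, z⁆⁆⁆, z'⁆ := fun u v => rfl
  let β : L →ₗ[ℝ] L →ₗ[ℝ] ℝ := LinearMap.mk₂ ℝ (fun u v => -(q / 2) * killingForm ℝ L u (θ v))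
    (fun u u' v => by rw [map_add, LinearMap.add_apply, mul_add])
    (fun t u v => by rw [map_smul, LinearMap.smul_apply, smul_eq_mul, smul_eq_mul]; ring)
    (fun u v v' => by rw [map_add, map_add, mul_add])
    (fun t u v => by rw [map_smul, map_smul, smul_eq_mul, smul_eq_mul]; ring)
  have hβ : ∀ u v, β u v = -(q / 2) * killingForm ℝ L u (θ v) := fun u v => rfl
  have wP : ∀ u v, Wv A (B j0) u → Wv A (B j0) v → Wv A (B k0) ⁅u, ⁅-θ (x j0), ⁅v, z⁆⁆⁆ := by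
    intro u v hu hv
    have := hu.lie (f.wE j0 k0 (wF v hv))
    rwa [add_sub_cancel] at this
  have e0 : -(q / 2) * -(2 / q) = 1 := by field_simp
  obtain ⟨ψ, h1, hψV, hmul, hbil⟩ := exists_psi (wsp A (B j0)) P β (x j0) i j (f.w j0) hi hj
    (fun u hu v hv => wG _ (wP u v hu hv))
    (fun u _ v _ => by rw [hβ, hβ, kf_symm c])
    (fun v hv => by rw [hP, f.yx h0 (wF v hv)]; exact GF v hv)
    (fun v hv => by
      rw [hP]
      have h3 : ⁅x j0, z⁆ = x k0 := by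
        rw [hz]
        exact f.yx h0 (f.w k0)
      rw [h3, ← hz]
      exact GF v hv)
    (fun u hu u' hu' heu heu' v hv => by
      have hu : Wv A (B j0) u := hu
      have hu' : Wv A (B j0) u' := hu'
      have hv : Wv A (B j0) v := hv
      -- `[y, P u v] = [θ u, F v]` for `u ⊥ e`
      have key : ∀ w, Wv A (B j0) w → β (x j0) w = 0 → ⁅-θ (x j0), ⁅⁅⁅w, ⁅-θ (x j0), ⁅v, z⁆⁆⁆, z'⁆, z⁆⁆ = ⁅θ w, ⁅v, z⁆⁆ := by
        intro w hw h2
        rw [FG _ (wP w v hw hv)]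
        have h3 := c.idI h0 (f.w j0) hw (f.wE j0 k0 (wF v hv))
        have h4 : killingForm ℝ L (x j0) (θ w) = 0 := by
          rw [hβ] at h2
          have h5 : -(q / 2) ≠ 0 := by
            have : 0 < q / 2 := by positivity
            linarith
          exact (mul_eq_zero.1 h2).resolve_left h5
        rw [f.yx h0 (wF v hv), h4, mul_zero, zero_smul] at h3
        rw [neg_lie, neg_eq_iff_add_eq_zero, add_comm]
        exact h3
      have h5 : ∀ w w', Wv A (B j0) w → Wv A (B j0) w' → ⁅w, ⁅θ w', ⁅v, z⁆⁆⁆ = ⁅⁅w, θ w'⁆, ⁅v, z⁆⁆ := by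
        intro w w' hw hw'
        rw [leibniz_lie, comm_w c hw (wF v hv), lie_zero, add_zero]
      simp only [hP]
      rw [key u hu heu, key u' hu' heu', ← add_lie, h5 u' u hu' hu, h5 u u' hu hu', c.act hu' hu (wF v hv),
        c.hq_ne h0, smul_lie, GF v hv, hβ]
      congr 1
      ring)
    (fun u hu u' hu' v hv => by
      have hu : Wv A (B j0) u := hu
      have hu' : Wv A (B j0) u' := hu'
      have hv : Wv A (B j0) v := hv
      rw [hP, hP, hβ, hβ, hβ, nG _ _ (wP u v hu hv) (wP u' v hu' hv)]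
      have h2 := c.norm_mul h0 hu hu' (f.wE j0 k0 (wF v hv))
      rw [nT v hv] at h2
      linear_combination (-(q / 4)) * h2)
    (by rw [hβ, f.n, e0]) (by rw [hβ, hin, e0]) (by rw [hβ, hjn, e0]) (by rw [hβ, hei, mul_zero]) (by rw [hβ, hej, mul_zero])
    (by rw [hβ, hij, mul_zero])
  have hψ : ∀ a, Wv A (B j0) (ψ a) := hψV
  have hX1 : ∀ j, Fr.F θ x j0 j (ψ 1) = x j := fun j => by rw [h1, f.Fe]
  have g : Pre c (fun j => Fr.F θ x j0 j ∘ₗ ψ) := by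
    refine ⟨fun j a => f.Fw (hψ a), fun j a a' => ?_, fun j k hjk a => ?_⟩
    · change killingForm ℝ L (Fr.F θ x j0 j (ψ a)) (θ (Fr.F θ x j0 j (ψ a'))) = _
      rw [f.Fn (hψ a) (hψ a'), ← hbil, hβ]
      field_simp
    · change ⁅Fr.F θ x j0 j (ψ a), ⁅-θ (Fr.F θ x j0 j (ψ 1)), Fr.F θ x j0 k (ψ 1)⁆⁆ = Fr.F θ x j0 k (ψ a)
      rw [hX1, hX1]
      exact f.cons hjk (hψ a)
  refine ⟨_, g.good h0 fun a a' => ?_⟩
  change ⁅Fr.F θ x j0 j0 (ψ a), ⁅-θ (Fr.F θ x j0 j0 (ψ 1)), Fr.F θ x j0 k0 (ψ a')⁆⁆ = Fr.F θ x j0 k0 (ψ (a * a'))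
  rw [hX1, Fr.F_self, hF, hF]
  refine iG _ _ (wP _ _ (hψ a) (hψ a')) (wF _ (hψ _)) ?_
  rw [GF _ (hψ _), hmul, hP]

theorem surj_wsp (hF : Module.Finite ℝ L) {φ : Module.Dual ℝ A} (hd : Module.finrank ℝ (wsp A φ) = 4) (f : ℍ[ℝ] →ₗ[ℝ] L)
    (hf : ∀ a, Wv A φ (f a)) (hi : ∀ a, f a = 0 → a = 0) {z : L} (hz : Wv A φ z) : ∃ a, z = f a := by
  let f' : ℍ[ℝ] →ₗ[ℝ] wsp A φ := f.codRestrict (wsp A φ) hf
  have h1 : Function.Injective f' := by
    rw [injective_iff_map_eq_zero]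
    intro a ha
    exact hi a (congrArg Subtype.val ha)
  have h2 : Function.Surjective f' := by
    refine (LinearMap.injective_iff_surjective_of_finrank_eq_finrank ?_).1 h1
    rw [hd, Quaternion.finrank_eq_four]
  obtain ⟨a, ha⟩ := h2 ⟨z, hz⟩
  exact ⟨a, (congrArg Subtype.val ha).symm⟩

namespace Good

variable {c : Ctx θ b A τ B q} {X : Fin r → ℍ[ℝ] →ₗ[ℝ] L}

theorem slDatH [LieAlgebra.IsSimple ℝ L] (g : Good c X) (hr : 2 ≤ r) (hd : ∀ φ ∈ rootsL A, Module.finrank ℝ (wsp A φ) = 4) :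
    SlDatH X (YY θ X) := by
  have hF : Module.Finite ℝ L := Module.Finite.of_basis b
  have hBr : ∀ j, B j ∈ rootsL A := fun j => by rw [c.hB]; exact Or.inl ⟨j, rfl⟩
  have hBn : ∀ j, -B j ∈ rootsL A := fun j => by rw [c.hB]; exact Or.inr (Or.inl ⟨j, rfl⟩)
  have hBs : ∀ j k, j ≠ k → B k - B j ∈ rootsL A := fun j k hjk => by rw [c.hB]; exact Or.inr (Or.inr ⟨j, k, hjk, rfl⟩)
  have hne : (rootsL A).Nonempty := ⟨_, hBr ⟨0, by omega⟩⟩
  have sX : ∀ j z, Wv A (B j) z → ∃ a, z = X j a := fun j z hz => surj_wsp hF (hd _ (hBr j)) (X j) (g.w j) (g.nx j) hz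
  have sY : ∀ j z, Wv A (-B j) z → ∃ a, z = YY θ X j a := fun j z hz => surj_wsp hF (hd _ (hBn j)) (YY θ X j) (g.wY j) (g.ny j) hz
  have sE : ∀ j k, j ≠ k → ∀ z, Wv A (B k - B j) z → ∃ a, z = ⁅YY θ X j 1, X k a⁆ := by
    intro j k hjk z hz
    refine surj_wsp hF (hd _ (hBs j k hjk)) (((LieModule.toEnd ℝ L L (YY θ X j 1)) : L →ₗ[ℝ] L) ∘ₗ X k) (fun a => g.wE j k 1 a) ?_ hz
    intro a ha
    change ⁅YY θ X j 1, X k a⁆ = 0 at ha
    have h1 := g.r1' hjk 1 a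
    rw [ha, lie_zero, one_mul] at h1
    exact g.nx k a h1.symm
  obtain ⟨S, hS⟩ : ∃ S : Set L, S = (Set.range fun p : Fin r × ℍ[ℝ] => X p.1 p.2) ∪
    (Set.range fun p : Fin r × ℍ[ℝ] => YY θ X p.1 p.2) ∪
    Set.range fun p : (Fin r × ℍ[ℝ]) × (Fin r × ℍ[ℝ]) => ⁅YY θ X p.1.1 p.1.2, X p.2.1 p.2.2⁆ := ⟨_, rfl⟩
  have mX : ∀ j a, X j a ∈ Submodule.span ℝ S := fun j a => Submodule.subset_span (by rw [hS]; exact Or.inl (Or.inl ⟨(j, a), rfl⟩))
  have mY : ∀ j a, YY θ X j a ∈ Submodule.span ℝ S := fun j a => Submodule.subset_span (by rw [hS]; exact Or.inl (Or.inr ⟨(j, a), rfl⟩))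
  have mE : ∀ j a k a', ⁅YY θ X j a, X k a'⁆ ∈ Submodule.span ℝ S := fun j a k a' =>
    Submodule.subset_span (by rw [hS]; exact Or.inr ⟨((j, a), (k, a')), rfl⟩)
  have hspan : ⊤ ≤ Submodule.span ℝ S := by
    rw [← gens_top c.h c.hA hne, Submodule.span_le]
    rintro z (⟨φ, hφ, hz⟩ | ⟨φ, hφ, y, w, hy, hw, rfl⟩)
    · rw [c.hB] at hφ
      rcases hφ with ⟨j, rfl⟩ | ⟨j, rfl⟩ | ⟨j, k, hjk, rfl⟩
      · obtain ⟨a, rfl⟩ := sX j z hz
        exact mX j a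
      · obtain ⟨a, rfl⟩ := sY j z hz
        exact mY j a
      · obtain ⟨a, rfl⟩ := sE j k hjk z hz
        exact mE _ _ _ _
    · rw [c.hB] at hφ
      rcases hφ with ⟨j, rfl⟩ | ⟨j, rfl⟩ | ⟨j, k, hjk, rfl⟩
      · obtain ⟨a, rfl⟩ := sX j y hy
        obtain ⟨a', rfl⟩ := sY j w hw
        rw [← lie_skew]
        exact Submodule.neg_mem _ (mE _ _ _ _)
      · obtain ⟨a, rfl⟩ := sY j y hy
        rw [neg_neg] at hw
        obtain ⟨a', rfl⟩ := sX j w hw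
        exact mE _ _ _ _
      · obtain ⟨a, rfl⟩ := sE j k hjk y hy
        rw [neg_sub] at hw
        obtain ⟨a', rfl⟩ := sE k j (Ne.symm hjk) w hw
        rw [leibniz_lie, g.yxy hr, g.yxx hr, if_pos rfl, if_neg hjk, if_pos rfl, if_neg hjk, add_zero, sub_zero, lie_neg]
        exact Submodule.add_mem _ (mE _ _ _ _) (Submodule.neg_mem _ (mE _ _ _ _))
  refine ⟨g.xx, g.yy, g.yxx hr, g.yxy hr, g.nx, g.ny, ?_, by rw [← hS]; exact hspan⟩
  intro w h1 h2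
  refine center_zero c.h fun z => ?_
  have hz : z ∈ Submodule.span ℝ S := hspan Submodule.mem_top
  induction hz using Submodule.span_induction with
  | mem z hz =>
    rw [hS] at hz
    rcases hz with (⟨p, rfl⟩ | ⟨p, rfl⟩) | ⟨p, rfl⟩
    · exact h1 _ _
    · exact h2 _ _
    · change ⁅w, ⁅YY θ X p.1.1 p.1.2, X p.2.1 p.2.2⁆⁆ = 0
      rw [leibniz_lie, h2, h1, zero_lie, lie_zero, add_zero]
  | zero => exact lie_zero _
  | add z z' _ _ h3 h4 => rw [lie_add, h3, h4, add_zero]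
  | smul t z _ h3 => rw [lie_smul, h3, smul_zero]

end Good

end Pool.Agent.Helper77.TZ4
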