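import Pool.Agent.Helper77.TZ4.Dat

/-!
# Project TZ, quaternionic case, block b: `sl(n, ℍ)` and the elements `a E_(0 j)`, `a E_(j 0)` of `sl(r + 1, ℍ)`

`sl(n, ℍ)` is the real Lie algebra of the quaternionic matrices whose trace has real part zero.

PROOF (compare `Helper77/TZ2/Sl2.lean`): products of matrix units. `center`: a matrix `w` which commutes with all `a E_(0 j)` and `a E_(j 0)` is
`t` times the identity, `t` commutes with all `a`, so `t` is real, and the trace is `(r + 1) t`.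
`span`: `M = ∑ M 0 j E_(0 j) + ∑ M j 0 E_(j 0) + ∑ M j k (E_(j k) - δ_(j k) E_(0 0)) + t E_(0 0)`, `t = M 0 0 + ∑ M j j` has real part zero, so
`t` is a sum of commutators `a b - b a`, and `(a b - b a) E_(0 0) = [Y 0 a, X 0 b] - [Y 0 (a b), X 0 1]`.

Proved by helper48.
-/

set_option autoImplicit false

open scoped Quaternion

namespace Pool.Agent.Helper77.TZ4

attribute [local instance 100] LieRing.ofAssociativeRing

theorem re_trace_mul {n : ℕ} (X Y : Matrix (Fin n) (Fin n) ℍ[ℝ]) : (X * Y).trace.re = (Y * X).trace.re := by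
  have h : ∀ a b : ℍ[ℝ], (a * b).re = (b * a).re := by
    intro a b
    rw [Quaternion.re_mul, Quaternion.re_mul]
    ring
  have hs : ∀ f : Fin n → ℍ[ℝ], (∑ i, f i).re = ∑ i, (f i).re := fun f =>
    map_sum (⟨⟨fun a : ℍ[ℝ] => a.re, Quaternion.re_zero⟩, Quaternion.re_add⟩ : ℍ[ℝ] →+ ℝ) f Finset.univ
  simp only [Matrix.trace, Matrix.diag_apply, Matrix.mul_apply, hs]
  rw [Finset.sum_comm]
  exact Finset.sum_congr rfl fun i _ => Finset.sum_congr rfl fun j _ => h _ _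

/-- `sl(n, ℍ)`, the quaternionic matrices whose trace has real part zero, as a real Lie algebra. -/
def slH (n : ℕ) : LieSubalgebra ℝ (Matrix (Fin n) (Fin n) ℍ[ℝ]) where
  carrier := {X | X.trace.re = 0}
  add_mem' {X Y} hX hY := by
    change (X + Y).trace.re = 0
    rw [Matrix.trace_add, Quaternion.re_add, show X.trace.re = 0 from hX, show Y.trace.re = 0 from hY, add_zero]
  zero_mem' := by
    change (0 : Matrix (Fin n) (Fin n) ℍ[ℝ]).trace.re = 0
    rw [Matrix.trace_zero, Quaternion.re_zero]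
  smul_mem' c X hX := by
    change (c • X).trace.re = 0
    rw [Matrix.trace_smul, Quaternion.re_smul, show X.trace.re = 0 from hX, smul_zero]
  lie_mem' {X Y} _ _ := by
    change (X * Y - Y * X).trace.re = 0
    rw [Matrix.trace_sub, Quaternion.re_sub, re_trace_mul, sub_self]

theorem mem_slH {n : ℕ} {X : Matrix (Fin n) (Fin n) ℍ[ℝ]} : X ∈ slH n ↔ X.trace.re = 0 := Iff.rfl

/-- `a E_(0 j)` -/
noncomputable def hX {r : ℕ} (j : Fin r) : ℍ[ℝ] →ₗ[ℝ] slH (r + 1) where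
  toFun a := ⟨Matrix.single 0 j.succ a, by
    rw [mem_slH, Matrix.trace_single_eq_of_ne _ _ a (Fin.succ_ne_zero j).symm, Quaternion.re_zero]⟩
  map_add' a b := Subtype.ext (Matrix.single_add 0 j.succ a b)
  map_smul' c a := Subtype.ext (Matrix.smul_single c 0 j.succ a).symm

/-- `a E_(j 0)` -/
noncomputable def hY {r : ℕ} (j : Fin r) : ℍ[ℝ] →ₗ[ℝ] slH (r + 1) where
  toFun a := ⟨Matrix.single j.succ 0 a, by
    rw [mem_slH, Matrix.trace_single_eq_of_ne _ _ a (Fin.succ_ne_zero j), Quaternion.re_zero]⟩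
  map_add' a b := Subtype.ext (Matrix.single_add j.succ 0 a b)
  map_smul' c a := Subtype.ext (Matrix.smul_single c j.succ 0 a).symm

theorem coe_lieH {r : ℕ} (A B : slH (r + 1)) : ((⁅A, B⁆ : slH (r + 1)) : Matrix (Fin (r + 1)) (Fin (r + 1)) ℍ[ℝ]) =
    (A : Matrix (Fin (r + 1)) (Fin (r + 1)) ℍ[ℝ]) * B - B * A := rfl

theorem coe_hX {r : ℕ} (j : Fin r) (a : ℍ[ℝ]) : ((hX j a : slH (r + 1)) : Matrix (Fin (r + 1)) (Fin (r + 1)) ℍ[ℝ]) =
    Matrix.single 0 j.succ a := rfl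

theorem coe_hY {r : ℕ} (j : Fin r) (a : ℍ[ℝ]) : ((hY j a : slH (r + 1)) : Matrix (Fin (r + 1)) (Fin (r + 1)) ℍ[ℝ]) =
    Matrix.single j.succ 0 a := rfl

theorem coe_hYX {r : ℕ} (j k : Fin r) (a b : ℍ[ℝ]) : ((⁅hY j a, hX k b⁆ : slH (r + 1)) : Matrix (Fin (r + 1)) (Fin (r + 1)) ℍ[ℝ]) =
    Matrix.single j.succ k.succ (a * b) - (if j = k then Matrix.single 0 0 (b * a) else 0) := by
  rw [coe_lieH, coe_hX, coe_hY, Matrix.single_mul_single_same]
  congr 1
  by_cases h : j = k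
  · subst h
    rw [if_pos rfl, Matrix.single_mul_single_same]
  · rw [if_neg h, Matrix.single_mul_single_of_ne]
    exact fun h1 => h (Fin.succ_injective _ h1).symm

/-- `(a b - b a) E_(0 0)` -/
noncomputable def hZ {r : ℕ} (o : Fin r) (a b : ℍ[ℝ]) : slH (r + 1) := ⁅hY o a, hX o b⁆ - ⁅hY o (a * b), hX o 1⁆

theorem coe_hZ {r : ℕ} (o : Fin r) (a b : ℍ[ℝ]) : ((hZ o a b : slH (r + 1)) : Matrix (Fin (r + 1)) (Fin (r + 1)) ℍ[ℝ]) =
    Matrix.single 0 0 (a * b - b * a) := by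
  have h : ((hZ o a b : slH (r + 1)) : Matrix (Fin (r + 1)) (Fin (r + 1)) ℍ[ℝ]) =
    ((⁅hY o a, hX o b⁆ : slH (r + 1)) : Matrix (Fin (r + 1)) (Fin (r + 1)) ℍ[ℝ]) -
      ((⁅hY o (a * b), hX o 1⁆ : slH (r + 1)) : Matrix (Fin (r + 1)) (Fin (r + 1)) ℍ[ℝ]) := rfl
  rw [h, coe_hYX, coe_hYX, if_pos rfl, if_pos rfl, mul_one, one_mul, sub_eq_add_neg (a * b) (b * a), Matrix.single_add,
    show (-(b * a) : ℍ[ℝ]) = (-1 : ℝ) • (b * a) by rw [neg_one_smul], ← Matrix.smul_single, neg_one_smul]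
  abel

/-- the quaternion with the given coordinates -/
def qv (a b c d : ℝ) : ℍ[ℝ] := ⟨a, b, c, d⟩

theorem im_commutators (t : ℍ[ℝ]) (ht : t.re = 0) :
    t = (qv 0 0 (t.imI / 2) 0 * (qv 0 0 0 1) - (qv 0 0 0 1) * qv 0 0 (t.imI / 2) 0) +
      (qv 0 0 0 (t.imJ / 2) * (qv 0 1 0 0) - (qv 0 1 0 0) * qv 0 0 0 (t.imJ / 2)) +
      (qv 0 (t.imK / 2) 0 0 * (qv 0 0 1 0) - (qv 0 0 1 0) * qv 0 (t.imK / 2) 0 0) := by
  ext
  · simp [qv, Quaternion.re_mul, ht]
  · simp [qv, Quaternion.imI_mul]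
  · simp [qv, Quaternion.imJ_mul]
  · simp [qv, Quaternion.imK_mul]

theorem comm_all {t : ℍ[ℝ]} (h : ∀ c : ℍ[ℝ], t * c = c * t) : t.imI = 0 ∧ t.imJ = 0 ∧ t.imK = 0 := by
  have h1 := h (qv 0 1 0 0)
  have h2 := h (qv 0 0 1 0)
  have a1 := congrArg (fun q : ℍ[ℝ] => q.imK) h1
  have a2 := congrArg (fun q : ℍ[ℝ] => q.imJ) h1
  have a3 := congrArg (fun q : ℍ[ℝ] => q.imK) h2
  simp only [qv, Quaternion.imK_mul, Quaternion.imJ_mul] at a1 a2 a3
  refine ⟨?_, ?_, ?_⟩ <;> linarith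

theorem exists_slDatH {r : ℕ} (hr : 1 ≤ r) : ∃ X Y : Fin r → ℍ[ℝ] →ₗ[ℝ] slH (r + 1), SlDatH X Y := by
  have s0 : ∀ j : Fin r, j.succ ≠ (0 : Fin (r + 1)) := fun j => Fin.succ_ne_zero j
  have s1 : ∀ j : Fin r, (0 : Fin (r + 1)) ≠ j.succ := fun j => (Fin.succ_ne_zero j).symm
  refine ⟨hX, hY, ?_, ?_, ?_, ?_, ?_, ?_, ?_, ?_⟩
  · intro j k a b
    apply Subtype.ext
    rw [coe_lieH, coe_hX, coe_hX, Matrix.single_mul_single_of_ne _ _ _ _ (s0 j), Matrix.single_mul_single_of_ne _ _ _ _ (s0 k),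
      sub_zero]
    rfl
  · intro j k a b
    apply Subtype.ext
    rw [coe_lieH, coe_hY, coe_hY, Matrix.single_mul_single_of_ne _ _ _ _ (s1 k), Matrix.single_mul_single_of_ne _ _ _ _ (s1 j),
      sub_zero]
    rfl
  · intro j k l a b c
    apply Subtype.ext
    rw [coe_lieH, coe_hYX, coe_hX]
    have e0 : ((-(if j = l then (hX k (c * a * b) : slH (r + 1)) else 0) - (if j = k then hX l (b * a * c) else 0) : slH (r + 1)) :
        Matrix (Fin (r + 1)) (Fin (r + 1)) ℍ[ℝ]) =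
        -(if j = l then Matrix.single 0 k.succ (c * a * b) else 0) - (if j = k then Matrix.single 0 l.succ (b * a * c) else 0) := by
      split_ifs <;> rfl
    rw [e0]
    rw [sub_mul, mul_sub, Matrix.single_mul_single_of_ne _ _ _ _ (s0 k)]
    have e1 : (if j = k then Matrix.single (0 : Fin (r + 1)) (0 : Fin (r + 1)) (b * a) else 0) * Matrix.single 0 l.succ c =
        (if j = k then Matrix.single 0 l.succ (b * a * c) else 0) := by
      split_ifs
      · rw [Matrix.single_mul_single_same]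
      · rw [Matrix.zero_mul]
    have e2 : Matrix.single (0 : Fin (r + 1)) l.succ c * (if j = k then Matrix.single (0 : Fin (r + 1)) (0 : Fin (r + 1)) (b * a) else 0) = 0 := by
      split_ifs
      · rw [Matrix.single_mul_single_of_ne _ _ _ _ (s0 l)]
      · rw [Matrix.mul_zero]
    have e3 : Matrix.single (0 : Fin (r + 1)) l.succ c * Matrix.single j.succ k.succ (a * b) =
        (if j = l then Matrix.single 0 k.succ (c * a * b) else 0) := by
      by_cases h : j = l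
      · subst h
        rw [if_pos rfl, Matrix.single_mul_single_same, mul_assoc]
      · rw [if_neg h, Matrix.single_mul_single_of_ne]
        exact fun h1 => h (Fin.succ_injective _ h1).symm
    rw [e1, e2, e3]
    abel
  · intro j k l a b c
    apply Subtype.ext
    rw [coe_lieH, coe_hYX, coe_hY]
    have e0 : (((if k = l then (hY j (a * b * c) : slH (r + 1)) else 0) + (if j = k then hY l (c * b * a) else 0) : slH (r + 1)) :
        Matrix (Fin (r + 1)) (Fin (r + 1)) ℍ[ℝ]) =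
        (if k = l then Matrix.single j.succ 0 (a * b * c) else 0) + (if j = k then Matrix.single l.succ 0 (c * b * a) else 0) := by
      split_ifs <;> rfl
    rw [e0]
    rw [sub_mul, mul_sub, Matrix.single_mul_single_of_ne _ _ _ _ (s1 j)]
    have e1 : (if j = k then Matrix.single (0 : Fin (r + 1)) (0 : Fin (r + 1)) (b * a) else 0) * Matrix.single l.succ (0 : Fin (r + 1)) c = 0 := by
      split_ifs
      · rw [Matrix.single_mul_single_of_ne _ _ _ _ (s1 l)]
      · rw [Matrix.zero_mul]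
    have e2 : Matrix.single l.succ (0 : Fin (r + 1)) c * (if j = k then Matrix.single (0 : Fin (r + 1)) (0 : Fin (r + 1)) (b * a) else 0) =
        (if j = k then Matrix.single l.succ 0 (c * b * a) else 0) := by
      split_ifs
      · rw [Matrix.single_mul_single_same, mul_assoc]
      · rw [Matrix.mul_zero]
    have e3 : Matrix.single j.succ k.succ (a * b) * Matrix.single l.succ (0 : Fin (r + 1)) c =
        (if k = l then Matrix.single j.succ 0 (a * b * c) else 0) := by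
      by_cases h : k = l
      · subst h
        rw [if_pos rfl, Matrix.single_mul_single_same]
      · rw [if_neg h, Matrix.single_mul_single_of_ne]
        exact fun h1 => h (Fin.succ_injective _ h1)
    rw [e1, e2, e3]
    abel
  · intro j a h
    have h1 := congrArg (fun z : slH (r + 1) => (z : Matrix (Fin (r + 1)) (Fin (r + 1)) ℍ[ℝ]) 0 j.succ) h
    change Matrix.single 0 j.succ a 0 j.succ = 0 at h1
    rwa [Matrix.single_apply_same] at h1
  · intro j a h
    have h1 := congrArg (fun z : slH (r + 1) => (z : Matrix (Fin (r + 1)) (Fin (r + 1)) ℍ[ℝ]) j.succ 0) h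
    change Matrix.single j.succ 0 a j.succ 0 = 0 at h1
    rwa [Matrix.single_apply_same] at h1
  · intro w hx hy
    have hX' : ∀ (l : Fin r) (c : ℍ[ℝ]), (w : Matrix (Fin (r + 1)) (Fin (r + 1)) ℍ[ℝ]) * Matrix.single 0 l.succ c =
        Matrix.single 0 l.succ c * (w : Matrix (Fin (r + 1)) (Fin (r + 1)) ℍ[ℝ]) := by
      intro l c
      have h1 := congrArg (fun z : slH (r + 1) => (z : Matrix (Fin (r + 1)) (Fin (r + 1)) ℍ[ℝ])) (hx l c)
      change (w : Matrix (Fin (r + 1)) (Fin (r + 1)) ℍ[ℝ]) * Matrix.single 0 l.succ c -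
        Matrix.single 0 l.succ c * (w : Matrix (Fin (r + 1)) (Fin (r + 1)) ℍ[ℝ]) = 0 at h1
      exact sub_eq_zero.1 h1
    have hY' : ∀ l : Fin r, (w : Matrix (Fin (r + 1)) (Fin (r + 1)) ℍ[ℝ]) * Matrix.single l.succ 0 1 =
        Matrix.single l.succ 0 1 * (w : Matrix (Fin (r + 1)) (Fin (r + 1)) ℍ[ℝ]) := by
      intro l
      have h1 := congrArg (fun z : slH (r + 1) => (z : Matrix (Fin (r + 1)) (Fin (r + 1)) ℍ[ℝ])) (hy l 1)
      change (w : Matrix (Fin (r + 1)) (Fin (r + 1)) ℍ[ℝ]) * Matrix.single l.succ 0 1 -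
        Matrix.single l.succ 0 1 * (w : Matrix (Fin (r + 1)) (Fin (r + 1)) ℍ[ℝ]) = 0 at h1
      exact sub_eq_zero.1 h1
    have hoff : ∀ i j : Fin (r + 1), i ≠ j → (w : Matrix (Fin (r + 1)) (Fin (r + 1)) ℍ[ℝ]) i j = 0 := by
      intro i j hij
      refine Fin.cases (fun hij => ?_) (fun i hij => ?_) i hij
      · refine Fin.cases (fun hij => absurd rfl hij) (fun j _ => ?_) j hij
        have h1 := congrFun (congrFun (hY' j) j.succ) j.succ
        rw [Matrix.mul_single_apply_of_ne _ _ _ _ _ (s0 j), Matrix.single_mul_apply_same, one_mul] at h1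
        exact h1.symm
      · have h1 := congrFun (congrFun (hX' i 1) 0) j
        rw [Matrix.mul_single_apply_of_ne _ _ _ _ _ (Ne.symm hij), Matrix.single_mul_apply_same, one_mul] at h1
        exact h1.symm
    have hdiag : ∀ l : Fin r, (w : Matrix (Fin (r + 1)) (Fin (r + 1)) ℍ[ℝ]) l.succ l.succ = (w : Matrix (Fin (r + 1)) (Fin (r + 1)) ℍ[ℝ]) 0 0 := by
      intro l
      have h1 := congrFun (congrFun (hX' l 1) 0) l.succ
      rw [Matrix.mul_single_apply_same, Matrix.single_mul_apply_same, one_mul, mul_one] at h1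
      exact h1.symm
    have hcomm : ∀ c : ℍ[ℝ], (w : Matrix (Fin (r + 1)) (Fin (r + 1)) ℍ[ℝ]) 0 0 * c = c * (w : Matrix (Fin (r + 1)) (Fin (r + 1)) ℍ[ℝ]) 0 0 := by
      intro c
      have h1 := congrFun (congrFun (hX' ⟨0, hr⟩ c) 0) (Fin.succ ⟨0, hr⟩)
      rw [Matrix.mul_single_apply_same, Matrix.single_mul_apply_same, hdiag] at h1
      exact h1
    have htr : (w : Matrix (Fin (r + 1)) (Fin (r + 1)) ℍ[ℝ]).trace.re = 0 := w.2
    rw [Matrix.trace, Fin.sum_univ_succ] at htr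
    simp only [Matrix.diag_apply, hdiag, Finset.sum_const, Finset.card_univ, Fintype.card_fin] at htr
    rw [Quaternion.re_add, ← Nat.cast_smul_eq_nsmul ℝ, Quaternion.re_smul, smul_eq_mul] at htr
    have h00 : (w : Matrix (Fin (r + 1)) (Fin (r + 1)) ℍ[ℝ]) 0 0 = 0 := by
      obtain ⟨c1, c2, c3⟩ := comm_all hcomm
      have h2 : ((1 : ℝ) + (r : ℝ)) * ((w : Matrix (Fin (r + 1)) (Fin (r + 1)) ℍ[ℝ]) 0 0).re = 0 := by
        rw [add_mul, one_mul]
        exact htr
      have h3 : ((w : Matrix (Fin (r + 1)) (Fin (r + 1)) ℍ[ℝ]) 0 0).re = 0 := by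
        refine (mul_eq_zero.1 h2).resolve_left ?_
        positivity
      ext
      · exact h3
      · exact c1
      · exact c2
      · exact c3
    apply Subtype.ext
    ext1 i j
    by_cases hij : i = j
    · subst hij
      refine Fin.cases ?_ (fun i => ?_) i
      · exact h00
      · exact (hdiag i).trans h00
    · exact hoff i j hij
  · intro M _
    obtain ⟨t, ht⟩ : ∃ t : ℍ[ℝ], t = (M : Matrix (Fin (r + 1)) (Fin (r + 1)) ℍ[ℝ]).trace := ⟨_, rfl⟩
    have ht0 : t.re = 0 := by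
      rw [ht]
      exact M.2
    have hM : M = ∑ j, hX j ((M : Matrix (Fin (r + 1)) (Fin (r + 1)) ℍ[ℝ]) 0 (Fin.succ j)) +
        ∑ j, hY j ((M : Matrix (Fin (r + 1)) (Fin (r + 1)) ℍ[ℝ]) (Fin.succ j) 0) +
        ∑ p : Fin r × Fin r, ⁅hY p.1 ((M : Matrix (Fin (r + 1)) (Fin (r + 1)) ℍ[ℝ]) (Fin.succ p.1) (Fin.succ p.2)), hX p.2 1⁆ +
        (hZ ⟨0, hr⟩ (qv 0 0 (t.imI / 2) 0) (qv 0 0 0 1) + hZ ⟨0, hr⟩ (qv 0 0 0 (t.imJ / 2)) (qv 0 1 0 0) +
          hZ ⟨0, hr⟩ (qv 0 (t.imK / 2) 0 0) (qv 0 0 1 0)) := by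
      apply Subtype.ext
      have hc : ∀ (a b c d e f : slH (r + 1)), ((a + b + c + (d + e + f) : slH (r + 1)) : Matrix (Fin (r + 1)) (Fin (r + 1)) ℍ[ℝ]) =
        (a : Matrix (Fin (r + 1)) (Fin (r + 1)) ℍ[ℝ]) + b + c + (d + e + f) := fun _ _ _ _ _ _ => rfl
      rw [hc]
      have hs : ∀ {ι : Type} (s : Finset ι) (f : ι → slH (r + 1)), ((∑ i ∈ s, f i : slH (r + 1)) : Matrix (Fin (r + 1)) (Fin (r + 1)) ℍ[ℝ]) =
          ∑ i ∈ s, (f i : Matrix (Fin (r + 1)) (Fin (r + 1)) ℍ[ℝ]) := by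
        intro ι s f
        exact map_sum ((slH (r + 1)).toSubmodule.subtype) (fun i => f i) s
      rw [hs, hs, hs, coe_hZ, coe_hZ, coe_hZ, ← Matrix.single_add, ← Matrix.single_add, ← im_commutators t ht0]
      simp only [coe_hYX, coe_hX, coe_hY, mul_one, one_mul]
      have htr := ht
      rw [Matrix.trace, Fin.sum_univ_succ] at htr
      simp only [Matrix.diag_apply] at htr
      have hite : ∀ (p : Fin r × Fin r) (a b : Fin (r + 1)), (if p.1 = p.2 then
          Matrix.single (0 : Fin (r + 1)) (0 : Fin (r + 1)) ((M : Matrix (Fin (r + 1)) (Fin (r + 1)) ℍ[ℝ]) p.1.succ p.2.succ) else 0) a b =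
          if p.1 = p.2 then (if 0 = a ∧ 0 = b then (M : Matrix (Fin (r + 1)) (Fin (r + 1)) ℍ[ℝ]) p.1.succ p.2.succ else 0) else 0 := by
        intro p a b
        split_ifs with h1 h2
        · rw [Matrix.single_apply, if_pos h2]
        · rw [Matrix.single_apply, if_neg h2]
        · rfl
      refine Matrix.ext fun a b => ?_
      simp only [Matrix.add_apply, Matrix.sum_apply, Matrix.sub_apply, hite, Matrix.single_apply]
      refine Fin.cases ?_ (fun a => ?_) a <;> refine Fin.cases ?_ (fun b => ?_) b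
      · simp [Fintype.sum_prod_type, htr]
      · simp [(Fin.succ_injective r).eq_iff, s1, s0]
      · simp [(Fin.succ_injective r).eq_iff, s1, s0]
      · simp [(Fin.succ_injective r).eq_iff, s1, Fintype.sum_prod_type, ite_and]
    rw [hM]
    have hYXm : ∀ (j k : Fin r) (a b : ℍ[ℝ]), ⁅hY j a, hX k b⁆ ∈ Submodule.span ℝ ((Set.range fun p : Fin r × ℍ[ℝ] => hX p.1 p.2) ∪
        (Set.range fun p : Fin r × ℍ[ℝ] => hY p.1 p.2) ∪
        Set.range fun p : (Fin r × ℍ[ℝ]) × (Fin r × ℍ[ℝ]) => ⁅hY p.1.1 p.1.2, hX p.2.1 p.2.2⁆) := fun j k a b =>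
      Submodule.subset_span (Or.inr ⟨((j, a), (k, b)), rfl⟩)
    refine Submodule.add_mem _ (Submodule.add_mem _ (Submodule.add_mem _ ?_ ?_) ?_) ?_
    · exact Submodule.sum_mem _ fun j _ => Submodule.subset_span (Or.inl (Or.inl ⟨(j, _), rfl⟩))
    · exact Submodule.sum_mem _ fun j _ => Submodule.subset_span (Or.inl (Or.inr ⟨(j, _), rfl⟩))
    · exact Submodule.sum_mem _ fun p _ => hYXm _ _ _ _
    · exact Submodule.add_mem _ (Submodule.add_mem _ (Submodule.sub_mem _ (hYXm _ _ _ _) (hYXm _ _ _ _))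
        (Submodule.sub_mem _ (hYXm _ _ _ _) (hYXm _ _ _ _))) (Submodule.sub_mem _ (hYXm _ _ _ _) (hYXm _ _ _ _))

end Pool.Agent.Helper77.TZ4
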