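import Pool.Agent.Helper43.TZ.SLie
import Pool.Agent.Helper77.TZ4.Ex
import Pool.Agent.Helper77.TZ4.Sl

/-!
# Project TZ, T+1: simple Lie algebras of type `A` with root spaces of dimension four
-/

set_option autoImplicit false

open Matrix

namespace Pool.Agent.Helper77.TZ4

open Pool.Agent.Helper96.SA Pool.Agent.Helper96.TO Pool.Agent.Helper69.SLN Pool.Agent.Helper77.TZ2
open Pool.Agent.Helper43.TZ (rootSp)

variable {L : Type} [LieRing L] [LieAlgebra ℝ L] {N : ℕ} {θ : L ≃ₗ⁅ℝ⁆ L} {b : Module.Basis (Fin N) ℝ L} {A : Submodule ℝ L}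

/-- **A simple real Lie algebra of type `A_r`, `r ≥ 2`, with root spaces of dimension four is isomorphic to `sl(r + 1, ℍ)`.** -/
theorem sl_of_typeA4 [LieAlgebra.IsSimple ℝ L] (h : CartanBasis θ b) (hA : MaxFlat θ A) (h2 : 2 ≤ Module.finrank ℝ A) (hT : IsTypeA (rootsL A))
    (h1 : ∀ φ ∈ rootsL A, Module.finrank ℝ (rootSp A φ) = 4) : Nonempty (L ≃ₗ⁅ℝ⁆ slH (Module.finrank ℝ A + 1)) := by
  have hd : ∀ φ ∈ rootsL A, Module.finrank ℝ (wsp A φ) = 4 := h1
  obtain ⟨τ, B, q, c⟩ := exists_ctx h hA (by omega) hT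
  have h01 : (⟨0, by omega⟩ : Fin (Module.finrank ℝ A)) ≠ ⟨1, by omega⟩ := fun h => by simpa using congrArg Fin.val h
  obtain ⟨X, g⟩ := exists_good c h01 (hd _ (by rw [c.hB]; exact Or.inl ⟨_, rfl⟩))
  obtain ⟨X', Y', h'⟩ := exists_slDatH (r := Module.finrank ℝ A) (by omega)
  exact (g.slDatH h2 hd).iso h'

end Pool.Agent.Helper77.TZ4
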