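import Mathlib

/-!
# Project TZ, quaternionic case, block a: an abstract characterisation of `sl(r + 1, ℍ)` as a real Lie algebra

`SlDatH X Y`: `X j a`, `Y j a` (`a ∈ ℍ`) satisfy the relations of `a E_(0 j)`, `a E_(j 0)`, the elements
`X j a`, `Y j a`, `[Y j a, X k b]` span `L`, and `center`.

PROOF of `iso` (compare `Helper77/TZ2/Dat2.lean`, which is the case `ℂ`; the step `yx_eq` is wrong here, so another parametrisation).
(1) `D` = the span in `L × L'` of the pairs `([Y j a, X k b], [Y' j a, X' k b])`. For `d ∈ D` and all `l`, `c` there is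
`f : Fin r → ℍ` with `[d.1, X l c] = ∑ k, X k (f k)` and `[d.2, X' l c] = ∑ k, X' k (f k)` (the same `f`); the same with
`Y`, `Y'` (span induction, `yxx`, `yxy`).
(2) `M = (Fin r → ℍ) × (Fin r → ℍ) × D`, `Φ (u, v, d) = ∑ X j (u j) + ∑ Y j (v j) + d.1 : M → L` and
`Φ' (u, v, d) = ∑ X' j (u j) + ∑ Y' j (v j) + d.2 : M → L'` are onto by `span`. They have the same kernel: if `Φ (u, v, d) = 0`, then
`[[·, X l 1], X l 1]` gives `X l (2 v l) = 0`, `[[·, Y l 1], Y l 1]` gives `Y l (2 u l) = 0`, so `d.1 = 0`; if `∑ X k (w k) = 0`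
then `[[Y m 1, X m 1], ·]` gives `w m = 0`, so the `f` of (1) are zero, and `d.2 = 0` by `center`.
(3) So there is `e : L ≃ₗ[ℝ] L'` with `e (Φ m) = Φ' m`; it maps `X j a`, `Y j a`, `[Y j a, X k b]` to `X' j a`, `Y' j a`, `[Y' j a, X' k b]`.
It preserves the brackets of these elements by `xx`, `yy`, `yxx`, `yxy` and
`[[Y j a, X k b], [Y l c, X m d]] = [[[Y j a, X k b], Y l c], X m d] + [Y l c, [[Y j a, X k b], X m d]]`.
-/

set_option autoImplicit false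

open scoped Quaternion

namespace Pool.Agent.Helper77.TZ4

/-- The relations of the matrices `a E_(0 j)` and `a E_(j 0)`, `a ∈ ℍ`. -/
structure SlDatH {L : Type} [LieRing L] [LieAlgebra ℝ L] {r : ℕ} (X Y : Fin r → ℍ[ℝ] →ₗ[ℝ] L) : Prop where
  xx : ∀ j k a b, ⁅X j a, X k b⁆ = 0
  yy : ∀ j k a b, ⁅Y j a, Y k b⁆ = 0
  yxx : ∀ j k l a b c, ⁅⁅Y j a, X k b⁆, X l c⁆ =
    -(if j = l then X k (c * a * b) else 0) - (if j = k then X l (b * a * c) else 0)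
  yxy : ∀ j k l a b c, ⁅⁅Y j a, X k b⁆, Y l c⁆ =
    (if k = l then Y j (a * b * c) else 0) + (if j = k then Y l (c * b * a) else 0)
  nx : ∀ j a, X j a = 0 → a = 0
  ny : ∀ j a, Y j a = 0 → a = 0
  center : ∀ w : L, (∀ l c, ⁅w, X l c⁆ = 0) → (∀ l c, ⁅w, Y l c⁆ = 0) → w = 0
  span : ⊤ ≤ Submodule.span ℝ ((Set.range fun p : Fin r × ℍ[ℝ] => X p.1 p.2) ∪
    (Set.range fun p : Fin r × ℍ[ℝ] => Y p.1 p.2) ∪
    Set.range fun p : (Fin r × ℍ[ℝ]) × (Fin r × ℍ[ℝ]) => ⁅Y p.1.1 p.1.2, X p.2.1 p.2.2⁆)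

variable {L : Type} [LieRing L] [LieAlgebra ℝ L] {L' : Type} [LieRing L'] [LieAlgebra ℝ L'] {r : ℕ}
  {X Y : Fin r → ℍ[ℝ] →ₗ[ℝ] L} {X' Y' : Fin r → ℍ[ℝ] →ₗ[ℝ] L'}

variable {K : Type} [LieRing K] [LieAlgebra ℝ K]

/-- The relations alone. -/
private structure Rel (P Q : Fin r → ℍ[ℝ] →ₗ[ℝ] K) : Prop where
  xx : ∀ j k a b, ⁅P j a, P k b⁆ = 0
  yy : ∀ j k a b, ⁅Q j a, Q k b⁆ = 0
  yxx : ∀ j k l a b c, ⁅⁅Q j a, P k b⁆, P l c⁆ =
    -(if j = l then P k (c * a * b) else 0) - (if j = k then P l (b * a * c) else 0)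
  yxy : ∀ j k l a b c, ⁅⁅Q j a, P k b⁆, Q l c⁆ =
    (if k = l then Q j (a * b * c) else 0) + (if j = k then Q l (c * b * a) else 0)

private noncomputable def sX (P : Fin r → ℍ[ℝ] →ₗ[ℝ] K) : (Fin r → ℍ[ℝ]) →ₗ[ℝ] K :=
  ∑ k, (P k).comp (LinearMap.proj k)

private theorem sX_apply (P : Fin r → ℍ[ℝ] →ₗ[ℝ] K) (u : Fin r → ℍ[ℝ]) :
    sX P u = ∑ k, P k (u k) := by
  simp [sX, LinearMap.sum_apply]

private theorem sX_single (P : Fin r → ℍ[ℝ] →ₗ[ℝ] K) (k : Fin r) (a : ℍ[ℝ]) :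
    sX P (Pi.single k a) = P k a := by
  rw [sX_apply, Finset.sum_eq_single k]
  · simp
  · intro l _ hl
    rw [Pi.single_eq_of_ne hl, map_zero]
  · intro hk
    exact absurd (Finset.mem_univ k) hk

private def dD (P Q : Fin r → ℍ[ℝ] →ₗ[ℝ] K) : Submodule ℝ K :=
  Submodule.span ℝ (Set.range fun p : (Fin r × ℍ[ℝ]) × (Fin r × ℍ[ℝ]) => ⁅Q p.1.1 p.1.2, P p.2.1 p.2.2⁆)

private def gG (P Q : Fin r → ℍ[ℝ] →ₗ[ℝ] K) : Submodule ℝ K :=
  Submodule.span ℝ ((Set.range fun p : Fin r × ℍ[ℝ] => P p.1 p.2) ∪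
    (Set.range fun p : Fin r × ℍ[ℝ] => Q p.1 p.2) ∪
    Set.range fun p : (Fin r × ℍ[ℝ]) × (Fin r × ℍ[ℝ]) => ⁅Q p.1.1 p.1.2, P p.2.1 p.2.2⁆)

private theorem gG_P (P Q : Fin r → ℍ[ℝ] →ₗ[ℝ] K) (j : Fin r) (a : ℍ[ℝ]) : P j a ∈ gG P Q :=
  Submodule.subset_span (Or.inl (Or.inl ⟨(j, a), rfl⟩))

private theorem gG_Q (P Q : Fin r → ℍ[ℝ] →ₗ[ℝ] K) (j : Fin r) (a : ℍ[ℝ]) : Q j a ∈ gG P Q :=
  Submodule.subset_span (Or.inl (Or.inr ⟨(j, a), rfl⟩))

private theorem gG_QP (P Q : Fin r → ℍ[ℝ] →ₗ[ℝ] K) (j k : Fin r) (a b : ℍ[ℝ]) :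
    ⁅Q j a, P k b⁆ ∈ gG P Q :=
  Submodule.subset_span (Or.inr ⟨((j, a), (k, b)), rfl⟩)

private theorem gG_decomp {P Q : Fin r → ℍ[ℝ] →ₗ[ℝ] K} {g : K} (hg : g ∈ gG P Q) :
    ∃ u v : Fin r → ℍ[ℝ], ∃ d ∈ dD P Q, g = sX P u + sX Q v + d := by
  have h1 : gG P Q ≤ LinearMap.range (sX P) ⊔ LinearMap.range (sX Q) ⊔ dD P Q := by
    apply Submodule.span_le.2
    rintro x ((⟨⟨j, a⟩, rfl⟩ | ⟨⟨j, a⟩, rfl⟩) | ⟨⟨⟨j, a⟩, ⟨k, b⟩⟩, rfl⟩)
    · apply Submodule.mem_sup_left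
      apply Submodule.mem_sup_left
      exact ⟨Pi.single j a, sX_single P j a⟩
    · apply Submodule.mem_sup_left
      apply Submodule.mem_sup_right
      exact ⟨Pi.single j a, sX_single Q j a⟩
    · apply Submodule.mem_sup_right
      exact Submodule.subset_span ⟨((j, a), (k, b)), rfl⟩
  obtain ⟨y, hy, d, hd, rfl⟩ := Submodule.mem_sup.1 (h1 hg)
  obtain ⟨y1, ⟨u, rfl⟩, y2, ⟨v, rfl⟩, rfl⟩ := Submodule.mem_sup.1 hy
  exact ⟨u, v, d, hd, rfl⟩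

private theorem Rel.dX {P Q : Fin r → ℍ[ℝ] →ₗ[ℝ] K} (h : Rel P Q) {d : K} (hd : d ∈ dD P Q)
    (l : Fin r) (c : ℍ[ℝ]) : ∃ f, ⁅d, P l c⁆ = sX P f := by
  have h1 : ⁅d, P l c⁆ ∈ LinearMap.range (sX P) := by
    induction hd using Submodule.span_induction with
    | mem x hx =>
      obtain ⟨⟨⟨j, a⟩, ⟨k, b⟩⟩, rfl⟩ := hx
      rw [h.yxx]
      apply Submodule.sub_mem
      · apply Submodule.neg_mem
        split_ifs
        · exact ⟨_, sX_single P k _⟩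
        · exact Submodule.zero_mem _
      · split_ifs
        · exact ⟨_, sX_single P l _⟩
        · exact Submodule.zero_mem _
    | zero => rw [zero_lie]; exact Submodule.zero_mem _
    | add x y _ _ hx hy => rw [add_lie]; exact Submodule.add_mem _ hx hy
    | smul t x _ hx => rw [smul_lie]; exact Submodule.smul_mem _ _ hx
  obtain ⟨f, hf⟩ := h1
  exact ⟨f, hf.symm⟩

private theorem Rel.dY {P Q : Fin r → ℍ[ℝ] →ₗ[ℝ] K} (h : Rel P Q) {d : K} (hd : d ∈ dD P Q)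
    (l : Fin r) (c : ℍ[ℝ]) : ∃ f, ⁅d, Q l c⁆ = sX Q f := by
  have h1 : ⁅d, Q l c⁆ ∈ LinearMap.range (sX Q) := by
    induction hd using Submodule.span_induction with
    | mem x hx =>
      obtain ⟨⟨⟨j, a⟩, ⟨k, b⟩⟩, rfl⟩ := hx
      rw [h.yxy]
      apply Submodule.add_mem
      · split_ifs
        · exact ⟨_, sX_single Q j _⟩
        · exact Submodule.zero_mem _
      · split_ifs
        · exact ⟨_, sX_single Q l _⟩
        · exact Submodule.zero_mem _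
    | zero => rw [zero_lie]; exact Submodule.zero_mem _
    | add x y _ _ hx hy => rw [add_lie]; exact Submodule.add_mem _ hx hy
    | smul t x _ hx => rw [smul_lie]; exact Submodule.smul_mem _ _ hx
  obtain ⟨f, hf⟩ := h1
  exact ⟨f, hf.symm⟩

private theorem Rel.gP {P Q : Fin r → ℍ[ℝ] →ₗ[ℝ] K} (h : Rel P Q) {g : K} (hg : g ∈ gG P Q)
    (l : Fin r) (c : ℍ[ℝ]) : ⁅g, P l c⁆ ∈ gG P Q := by
  induction hg using Submodule.span_induction with
  | mem x hx =>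
    obtain ((⟨⟨j, a⟩, rfl⟩ | ⟨⟨j, a⟩, rfl⟩) | ⟨⟨⟨j, a⟩, ⟨k, b⟩⟩, rfl⟩) := hx
    · rw [h.xx]; exact Submodule.zero_mem _
    · exact gG_QP P Q j l a c
    · rw [h.yxx]
      apply Submodule.sub_mem
      · apply Submodule.neg_mem
        split_ifs
        · exact gG_P P Q _ _
        · exact Submodule.zero_mem _
      · split_ifs
        · exact gG_P P Q _ _
        · exact Submodule.zero_mem _
  | zero => rw [zero_lie]; exact Submodule.zero_mem _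
  | add x y _ _ hx hy => rw [add_lie]; exact Submodule.add_mem _ hx hy
  | smul t x _ hx => rw [smul_lie]; exact Submodule.smul_mem _ _ hx

private theorem Rel.gQ {P Q : Fin r → ℍ[ℝ] →ₗ[ℝ] K} (h : Rel P Q) {g : K} (hg : g ∈ gG P Q)
    (l : Fin r) (c : ℍ[ℝ]) : ⁅g, Q l c⁆ ∈ gG P Q := by
  induction hg using Submodule.span_induction with
  | mem x hx =>
    obtain ((⟨⟨j, a⟩, rfl⟩ | ⟨⟨j, a⟩, rfl⟩) | ⟨⟨⟨j, a⟩, ⟨k, b⟩⟩, rfl⟩) := hx
    · rw [← lie_skew]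
      exact Submodule.neg_mem _ (gG_QP P Q l j c a)
    · rw [h.yy]; exact Submodule.zero_mem _
    · rw [h.yxy]
      apply Submodule.add_mem
      · split_ifs
        · exact gG_Q P Q _ _
        · exact Submodule.zero_mem _
      · split_ifs
        · exact gG_Q P Q _ _
        · exact Submodule.zero_mem _
  | zero => rw [zero_lie]; exact Submodule.zero_mem _
  | add x y _ _ hx hy => rw [add_lie]; exact Submodule.add_mem _ hx hy
  | smul t x _ hx => rw [smul_lie]; exact Submodule.smul_mem _ _ hx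

private theorem Rel.gG_lie {P Q : Fin r → ℍ[ℝ] →ₗ[ℝ] K} (h : Rel P Q) {g g' : K}
    (hg : g ∈ gG P Q) (hg' : g' ∈ gG P Q) : ⁅g, g'⁆ ∈ gG P Q := by
  induction hg' using Submodule.span_induction with
  | mem x hx =>
    obtain ((⟨⟨j, a⟩, rfl⟩ | ⟨⟨j, a⟩, rfl⟩) | ⟨⟨⟨j, a⟩, ⟨k, b⟩⟩, rfl⟩) := hx
    · exact h.gP hg j a
    · exact h.gQ hg j a
    · rw [leibniz_lie]
      apply Submodule.add_mem
      · exact h.gP (h.gQ hg j a) k b
      · rw [← lie_skew]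
        exact Submodule.neg_mem _ (h.gQ (h.gP hg k b) j a)
  | zero => rw [lie_zero]; exact Submodule.zero_mem _
  | add x y _ _ hx hy => rw [lie_add]; exact Submodule.add_mem _ hx hy
  | smul t x _ hx => rw [lie_smul]; exact Submodule.smul_mem _ _ hx

private theorem Rel.sXX {P Q : Fin r → ℍ[ℝ] →ₗ[ℝ] K} (h : Rel P Q) (f : Fin r → ℍ[ℝ]) (l : Fin r)
    (c : ℍ[ℝ]) : ⁅sX P f, P l c⁆ = 0 := by
  rw [sX_apply, sum_lie]
  exact Finset.sum_eq_zero fun k _ => h.xx _ _ _ _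

private theorem Rel.sYY {P Q : Fin r → ℍ[ℝ] →ₗ[ℝ] K} (h : Rel P Q) (f : Fin r → ℍ[ℝ]) (l : Fin r)
    (c : ℍ[ℝ]) : ⁅sX Q f, Q l c⁆ = 0 := by
  rw [sX_apply, sum_lie]
  exact Finset.sum_eq_zero fun k _ => h.yy _ _ _ _

/-- `[[g, X l 1], X l 1]` -/
private theorem Rel.adX {P Q : Fin r → ℍ[ℝ] →ₗ[ℝ] K} (h : Rel P Q) (u v : Fin r → ℍ[ℝ]) {d : K}
    (hd : d ∈ dD P Q) (l : Fin r) :
    ⁅⁅sX P u + sX Q v + d, P l 1⁆, P l 1⁆ = (-2 : ℝ) • P l (v l) := by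
  obtain ⟨f, hf⟩ := h.dX hd l 1
  rw [add_lie, add_lie, hf, h.sXX, add_zero, add_lie, h.sXX, zero_add, sX_apply, sum_lie, sum_lie,
    Finset.sum_eq_single l]
  · rw [h.yxx, if_pos rfl, one_mul, mul_one]
    module
  · intro k _ hk
    rw [h.yxx, if_neg hk, neg_zero, sub_zero]
  · intro hk
    exact absurd (Finset.mem_univ l) hk

/-- `[[g, Y l 1], Y l 1]` -/
private theorem Rel.adY {P Q : Fin r → ℍ[ℝ] →ₗ[ℝ] K} (h : Rel P Q) (u v : Fin r → ℍ[ℝ]) {d : K}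
    (hd : d ∈ dD P Q) (l : Fin r) :
    ⁅⁅sX P u + sX Q v + d, Q l 1⁆, Q l 1⁆ = (-2 : ℝ) • Q l (u l) := by
  obtain ⟨f, hf⟩ := h.dY hd l 1
  rw [add_lie, add_lie, hf, h.sYY, add_zero, add_lie, h.sYY, add_zero, sX_apply, sum_lie, sum_lie,
    Finset.sum_eq_single l]
  · rw [← lie_skew (P l (u l)) (Q l 1), neg_lie, h.yxy, if_pos rfl, one_mul, mul_one]
    module
  · intro k _ hk
    rw [← lie_skew (P k (u k)) (Q l 1), neg_lie, h.yxy, if_neg hk, if_neg (Ne.symm hk), zero_add,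
      neg_zero]
  · intro hk
    exact absurd (Finset.mem_univ l) hk

/-- A sum of elements `X k (w k)` which vanishes has zero coefficients. -/
private theorem Rel.sX_inj {P Q : Fin r → ℍ[ℝ] →ₗ[ℝ] K} (h : Rel P Q)
    (hn : ∀ j a, P j a = 0 → a = 0) {w : Fin r → ℍ[ℝ]} (hw : sX P w = 0) : w = 0 := by
  funext m
  have h1 : ⁅⁅Q m 1, P m 1⁆, sX P w⁆ = -(P m (w m)) - sX P w := by
    rw [sX_apply, lie_sum]
    have h2 : ∀ k, ⁅⁅Q m 1, P m 1⁆, P k (w k)⁆ = -(if m = k then P m (w k) else 0) - P k (w k) := by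
      intro k
      rw [h.yxx, if_pos (rfl : m = m), one_mul, mul_one, mul_one, one_mul]
    rw [Finset.sum_congr rfl fun k _ => h2 k, Finset.sum_sub_distrib, Finset.sum_neg_distrib,
      Finset.sum_ite_eq, if_pos (Finset.mem_univ m)]
  rw [hw, lie_zero, sub_zero] at h1
  exact hn m _ (neg_eq_zero.1 h1.symm)

private theorem Rel.sY_inj {P Q : Fin r → ℍ[ℝ] →ₗ[ℝ] K} (h : Rel P Q)
    (hn : ∀ j a, Q j a = 0 → a = 0) {w : Fin r → ℍ[ℝ]} (hw : sX Q w = 0) : w = 0 := by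
  funext m
  have h1 : ⁅⁅Q m 1, P m 1⁆, sX Q w⁆ = Q m (w m) + sX Q w := by
    rw [sX_apply, lie_sum]
    have h2 : ∀ k, ⁅⁅Q m 1, P m 1⁆, Q k (w k)⁆ = (if m = k then Q m (w k) else 0) + Q k (w k) := by
      intro k
      rw [h.yxy, if_pos (rfl : m = m), one_mul, mul_one, one_mul, mul_one]
    rw [Finset.sum_congr rfl fun k _ => h2 k, Finset.sum_add_distrib,
      Finset.sum_ite_eq, if_pos (Finset.mem_univ m)]
  rw [hw, lie_zero, add_zero] at h1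
  exact hn m _ h1.symm

/-- The kernel of a homomorphism on the span. -/
private theorem Rel.ker {P Q : Fin r → ℍ[ℝ] →ₗ[ℝ] K} (h : Rel P Q) (hL : Rel X Y)
    (nx : ∀ j a, X j a = 0 → a = 0) (ny : ∀ j a, Y j a = 0 → a = 0) (φ : K →ₗ⁅ℝ⁆ L)
    (hX : ∀ j a, φ (P j a) = X j a) (hY : ∀ j a, φ (Q j a) = Y j a) {g : K} (hg : g ∈ gG P Q)
    (h0 : φ g = 0) (l : Fin r) (c : ℍ[ℝ]) : ⁅g, P l c⁆ = 0 ∧ ⁅g, Q l c⁆ = 0 := by
  obtain ⟨u, v, d, hd, rfl⟩ := gG_decomp hg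
  have hsX : ∀ w, φ (sX P w) = sX X w := by
    intro w
    rw [sX_apply, sX_apply, map_sum]
    exact Finset.sum_congr rfl fun k _ => hX k _
  have hsY : ∀ w, φ (sX Q w) = sX Y w := by
    intro w
    rw [sX_apply, sX_apply, map_sum]
    exact Finset.sum_congr rfl fun k _ => hY k _
  have hv : v = 0 := by
    funext m
    have h1 := congrArg φ (h.adX u v hd m)
    rw [LieHom.map_lie, LieHom.map_lie, h0, zero_lie, zero_lie, map_smul, hX] at h1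
    exact nx m _ ((smul_eq_zero.1 h1.symm).resolve_left (by norm_num))
  have hu : u = 0 := by
    funext m
    have h1 := congrArg φ (h.adY u v hd m)
    rw [LieHom.map_lie, LieHom.map_lie, h0, zero_lie, zero_lie, map_smul, hY] at h1
    exact ny m _ ((smul_eq_zero.1 h1.symm).resolve_left (by norm_num))
  subst hu hv
  rw [map_zero, map_zero, add_zero, zero_add] at h0 ⊢
  constructor
  · obtain ⟨f, hf⟩ := h.dX hd l c
    have h1 := congrArg φ hf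
    rw [LieHom.map_lie, h0, zero_lie, hsX] at h1
    rw [hf, hL.sX_inj nx h1.symm, map_zero]
  · obtain ⟨f, hf⟩ := h.dY hd l c
    have h1 := congrArg φ hf
    rw [LieHom.map_lie, h0, zero_lie, hsY] at h1
    rw [hf, hL.sY_inj ny h1.symm, map_zero]

private theorem SlDatH.rel (h : SlDatH X Y) : Rel X Y := ⟨h.xx, h.yy, h.yxx, h.yxy⟩

/-- onto -/
private theorem onto (hs : ⊤ ≤ gG X Y) {P Q : Fin r → ℍ[ℝ] →ₗ[ℝ] K} (φ : K →ₗ⁅ℝ⁆ L)
    (hX : ∀ j a, φ (P j a) = X j a) (hY : ∀ j a, φ (Q j a) = Y j a) (x : L) :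
    ∃ g ∈ gG P Q, φ g = x := by
  have h1 : gG X Y ≤ (gG P Q).map (φ : K →ₗ[ℝ] L) := by
    apply Submodule.span_le.2
    rintro x ((⟨⟨j, a⟩, rfl⟩ | ⟨⟨j, a⟩, rfl⟩) | ⟨⟨⟨j, a⟩, ⟨k, b⟩⟩, rfl⟩)
    · exact ⟨_, gG_P P Q j a, hX j a⟩
    · exact ⟨_, gG_Q P Q j a, hY j a⟩
    · refine ⟨_, gG_QP P Q j k a b, ?_⟩
      change φ _ = _
      rw [LieHom.map_lie, hX, hY]
  obtain ⟨g, hg, hgx⟩ := h1 (hs (Submodule.mem_top : x ∈ (⊤ : Submodule ℝ L)))
  exact ⟨g, hg, hgx⟩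

/-- Two Lie algebras with such elements are isomorphic. -/
theorem SlDatH.iso (h : SlDatH X Y) (h' : SlDatH X' Y') : Nonempty (L ≃ₗ⁅ℝ⁆ L') := by
  let P : Fin r → ℍ[ℝ] →ₗ[ℝ] (L × L') := fun j => (X j).prod (X' j)
  let Q : Fin r → ℍ[ℝ] →ₗ[ℝ] (L × L') := fun j => (Y j).prod (Y' j)
  have hP : ∀ j a, P j a = (X j a, X' j a) := fun j a => rfl
  have hQ : ∀ j a, Q j a = (Y j a, Y' j a) := fun j a => rfl
  have hR : Rel P Q := by
    constructor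
    · intro j k a b
      rw [hP, hP, LieAlgebra.Prod.bracket_apply, h.xx, h'.xx]
      rfl
    · intro j k a b
      rw [hQ, hQ, LieAlgebra.Prod.bracket_apply, h.yy, h'.yy]
      rfl
    · intro j k l a b c
      rw [hP, hP, hQ, LieAlgebra.Prod.bracket_apply, LieAlgebra.Prod.bracket_apply, h.yxx, h'.yxx,
        hP, hP]
      ext <;> split_ifs <;> simp
    · intro j k l a b c
      rw [hP, hQ, hQ, LieAlgebra.Prod.bracket_apply, LieAlgebra.Prod.bracket_apply, h.yxy, h'.yxy,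
        hQ, hQ]
      ext <;> split_ifs <;> simp
  have k1 : ∀ g ∈ gG P Q, g.1 = 0 → g = 0 := by
    intro g hg h0
    have h1 := hR.ker h.rel h.nx h.ny (LieHom.fst ℝ L L') (fun _ _ => rfl) (fun _ _ => rfl) hg h0
    have h2 : g.2 = 0 := h'.center _ (fun l c => congrArg Prod.snd (h1 l c).1)
      (fun l c => congrArg Prod.snd (h1 l c).2)
    exact Prod.ext h0 h2
  have k2 : ∀ g ∈ gG P Q, g.2 = 0 → g = 0 := by
    intro g hg h0
    have h1 := hR.ker h'.rel h'.nx h'.ny (LieHom.snd ℝ L L') (fun _ _ => rfl) (fun _ _ => rfl) hg h0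
    have h2 : g.1 = 0 := h.center _ (fun l c => congrArg Prod.fst (h1 l c).1)
      (fun l c => congrArg Prod.fst (h1 l c).2)
    exact Prod.ext h2 h0
  let f1 : gG P Q →ₗ[ℝ] L := (LinearMap.fst ℝ L L').comp (gG P Q).subtype
  let f2 : gG P Q →ₗ[ℝ] L' := (LinearMap.snd ℝ L L').comp (gG P Q).subtype
  have b1 : Function.Bijective f1 := by
    constructor
    · rw [← LinearMap.ker_eq_bot, LinearMap.ker_eq_bot']
      intro g hg
      exact Subtype.ext (k1 g.1 g.2 hg)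
    · intro x
      obtain ⟨g, hg, hx⟩ := onto h.span (P := P) (Q := Q) (LieHom.fst ℝ L L') (fun _ _ => rfl)
        (fun _ _ => rfl) x
      exact ⟨⟨g, hg⟩, hx⟩
  have b2 : Function.Bijective f2 := by
    constructor
    · rw [← LinearMap.ker_eq_bot, LinearMap.ker_eq_bot']
      intro g hg
      exact Subtype.ext (k2 g.1 g.2 hg)
    · intro x
      obtain ⟨g, hg, hx⟩ := onto h'.span (P := P) (Q := Q) (LieHom.snd ℝ L L') (fun _ _ => rfl)
        (fun _ _ => rfl) x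
      exact ⟨⟨g, hg⟩, hx⟩
  let e : L ≃ₗ[ℝ] L' := (LinearEquiv.ofBijective f1 b1).symm.trans (LinearEquiv.ofBijective f2 b2)
  have he : ∀ x : L, (x, e x) ∈ gG P Q := by
    intro x
    have h1 : f1 ((LinearEquiv.ofBijective f1 b1).symm x) = x :=
      LinearEquiv.apply_symm_apply (LinearEquiv.ofBijective f1 b1) x
    have h2 : ((x, e x) : L × L') = ((LinearEquiv.ofBijective f1 b1).symm x).1 :=
      Prod.ext h1.symm rfl
    rw [h2]
    exact ((LinearEquiv.ofBijective f1 b1).symm x).2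
  have he2 : ∀ (x : L) (y : L'), (x, y) ∈ gG P Q → y = e x := by
    intro x y hxy
    have h1 := (gG P Q).sub_mem hxy (he x)
    have h2 := k1 _ h1 (sub_self x)
    exact sub_eq_zero.1 (congrArg Prod.snd h2)
  exact ⟨{ e with
    map_lie' := by
      intro x y
      exact (he2 _ _ (hR.gG_lie (he x) (he y))).symm }⟩

end Pool.Agent.Helper77.TZ4
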