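import Pool.Agent.Helper77.TZ4.Rel

/-!
# Project TZ, quaternionic case: frames

`x j` of weight `β_j`, `κ(x j, θ (x j)) = -(2/q)`, `F j0 j : L_(β_j0) → L_(β_j)`, `F j0 j v = [v, [-θ (x j0), x j]]`.
-/

set_option autoImplicit false

open Matrix
open scoped Quaternion

namespace Pool.Agent.Helper77.TZ4

open Pool.Agent.Helper96.SA Pool.Agent.Helper96.TO Pool.Agent.Helper69.SLN Pool.Agent.Helper77.TZ2

variable {L : Type} [LieRing L] [LieAlgebra ℝ L] {N : ℕ} {θ : L ≃ₗ⁅ℝ⁆ L} {b : Module.Basis (Fin N) ℝ L} {A : Submodule ℝ L}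
  {r : ℕ} {τ : Module.Dual ℝ A ≃ₗ[ℝ] A} {B : Module.Basis (Fin r) ℝ (Module.Dual ℝ A)} {q : ℝ}

/-- A frame. -/
structure Fr (c : Ctx θ b A τ B q) (x : Fin r → L) : Prop where
  w : ∀ j, Wv A (B j) (x j)
  n : ∀ j, killingForm ℝ L (x j) (θ (x j)) = -(2 / q)

theorem comm_w (c : Ctx θ b A τ B q) {j k : Fin r} {u v : L} (hu : Wv A (B j) u) (hv : Wv A (B k) v) : ⁅u, v⁆ = 0 :=
  (hu.lie hv).eq_zero (c.hB.not_add j k).1 (c.hB.not_add j k).2

theorem comm_v (c : Ctx θ b A τ B q) {j k : Fin r} {u v : L} (hu : Wv A (-B j) u) (hv : Wv A (-B k) v) : ⁅u, v⁆ = 0 := by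
  have h3 := hu.lie hv
  rw [← neg_add] at h3
  refine h3.eq_zero (fun h4 => (c.hB.not_add j k).1 ?_) (neg_ne_zero.2 (c.hB.not_add j k).2)
  have := c.hB.neg h4
  rwa [neg_neg] at this

namespace Fr

variable {c : Ctx θ b A τ B q} {x : Fin r → L}

theorem wy (f : Fr c x) (j : Fin r) : Wv A (-B j) (-θ (x j)) := ((f.w j).theta c.hA).neg

theorem wE (f : Fr c x) (j k : Fin r) {v : L} (hv : Wv A (B k) v) : Wv A (B k - B j) ⁅-θ (x j), v⁆ := by
  have := (f.wy j).lie hv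
  rwa [neg_add_eq_sub] at this

theorem yx (f : Fr c x) {j k : Fin r} (hjk : j ≠ k) {v : L} (hv : Wv A (B k) v) : ⁅x j, ⁅-θ (x j), v⁆⁆ = v := by
  have hq := c.qpos
  rw [leibniz_lie, comm_w c (f.w j) hv, lie_zero, add_zero, lie_neg, neg_lie, c.act_self (f.w j) hv, f.n, c.hq_ne hjk, ← neg_smul]
  have : -(-(2 / q) * (q / 2)) = 1 := by field_simp
  rw [this, one_smul]

theorem hr2 (f : Fr c x) {i j : Fin r} (hij : i ≠ j) : ⁅⁅-θ (x i), x j⁆, -θ (x j)⁆ = -θ (x i) := by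
  have hq := c.qpos
  rw [lie_lie, comm_v c (f.wy i) (f.wy j), lie_zero, sub_zero, ← lie_skew (-θ (x i)), lie_neg (x j), neg_lie, neg_neg,
    c.act_self (f.w j) (f.wy i), f.n, LinearMap.neg_apply, c.hq_ne hij.symm]
  have : -(2 / q) * -(q / 2) = 1 := by field_simp
  rw [this, one_smul]

theorem Tn (f : Fr c x) {j k : Fin r} (hjk : j ≠ k) {v : L} (hv : Wv A (B k) v) :
    killingForm ℝ L ⁅-θ (x j), v⁆ (θ ⁅-θ (x j), v⁆) = killingForm ℝ L v (θ v) := by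
  have hq := c.qpos
  have h1 := c.norm_mul hjk (f.w j) (f.w j) (f.wE j k hv)
  rw [f.yx hjk hv, f.n] at h1
  have e : q * -(2 / q) = -2 := by field_simp
  rw [e] at h1
  linarith

/-- right multiplication with `z` -/
noncomputable def rm (z : L) : L →ₗ[ℝ] L := -(LieModule.toEnd ℝ L L z : L →ₗ[ℝ] L)

theorem rm_apply (z v : L) : rm z v = ⁅v, z⁆ := by
  change -⁅z, v⁆ = _
  rw [lie_skew]

/-- the isometries -/
noncomputable def F (θ : L ≃ₗ⁅ℝ⁆ L) (x : Fin r → L) (j0 j : Fin r) : L →ₗ[ℝ] L :=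
  if j = j0 then LinearMap.id else rm ⁅-θ (x j0), x j⁆

theorem F_self (j0 : Fin r) (v : L) : F θ x j0 j0 v = v := by
  rw [F, if_pos rfl, LinearMap.id_apply]

theorem F_ne {j0 j : Fin r} (hj : j ≠ j0) (v : L) : F θ x j0 j v = ⁅v, ⁅-θ (x j0), x j⁆⁆ := by
  rw [F, if_neg hj, rm_apply]

theorem Fw (f : Fr c x) {j0 j : Fin r} {v : L} (hv : Wv A (B j0) v) : Wv A (B j) (F θ x j0 j v) := by
  by_cases hj : j = j0
  · rw [hj, F_self]
    exact hv
  · rw [F_ne hj]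
    have := hv.lie (f.wE j0 j (f.w j))
    rwa [add_sub_cancel] at this

theorem rn (f : Fr c x) {j k : Fin r} (hjk : j ≠ k) {v v' : L} (hv : Wv A (B j) v) (hv' : Wv A (B j) v') :
    killingForm ℝ L ⁅v, ⁅-θ (x j), x k⁆⁆ (θ ⁅v', ⁅-θ (x j), x k⁆⁆) = killingForm ℝ L v (θ v') := by
  have hq := c.qpos
  have h1 := c.norm_mul hjk hv hv' (f.wE j k (f.w k))
  rw [f.Tn hjk (f.w k), f.n] at h1
  have e : q * killingForm ℝ L v (θ v') * -(2 / q) = -(2 * killingForm ℝ L v (θ v')) := by field_simp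
  rw [e] at h1
  linarith

theorem Fn (f : Fr c x) {j0 j : Fin r} {v v' : L} (hv : Wv A (B j0) v) (hv' : Wv A (B j0) v') :
    killingForm ℝ L (F θ x j0 j v) (θ (F θ x j0 j v')) = killingForm ℝ L v (θ v') := by
  by_cases hj : j = j0
  · rw [hj, F_self, F_self]
  · rw [F_ne hj, F_ne hj]
    exact f.rn (Ne.symm hj) hv hv'

theorem Fe (f : Fr c x) (j0 j : Fin r) : F θ x j0 j (x j0) = x j := by
  by_cases hj : j = j0
  · rw [hj, F_self]
  · rw [F_ne hj, f.yx (Ne.symm hj) (f.w j)]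

/-- consistency -/
theorem cons (f : Fr c x) {j0 j k : Fin r} (hjk : j ≠ k) {v : L} (hv : Wv A (B j0) v) :
    ⁅F θ x j0 j v, ⁅-θ (x j), x k⁆⁆ = F θ x j0 k v := by
  have hq := c.qpos
  by_cases hj : j = j0
  · subst hj
    rw [F_self, F_ne (Ne.symm hjk)]
  · have hx'E : ⁅v, ⁅-θ (x j), x k⁆⁆ = 0 := by
      have h3 := hv.lie (f.wE j k (f.w k))
      rw [add_comm] at h3
      exact h3.eq_zero (c.hB.not_three hjk hj).1 (c.hB.not_three hjk hj).2
    have hzE : ⁅⁅-θ (x j0), x j⁆, ⁅-θ (x j), x k⁆⁆ =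
        ⁅-θ (x j0), x k⁆ + ⁅-θ (x j), ⁅⁅-θ (x j0), x j⁆, x k⁆⁆ := by
      rw [leibniz_lie, f.hr2 (Ne.symm hj)]
    rw [F_ne hj, lie_lie, hx'E, lie_zero, sub_zero, hzE]
    by_cases hk : k = j0
    · subst hk
      have e1 : ⁅⁅-θ (x k), x j⁆, x k⁆ = -x j := by
        rw [← lie_skew, f.yx (Ne.symm hjk) (f.w j)]
      rw [e1, F_self, lie_neg, lie_add, lie_neg, ← lie_skew (-θ (x k)) (x k), ← lie_skew (-θ (x j)) (x j), lie_neg (x k), lie_neg (x j),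
        neg_neg, neg_neg, ← lie_skew v, ← lie_skew v ⁅x j, _⁆, c.act_self (f.w k) hv, c.act_self (f.w j) hv, f.n, f.n,
        c.hq_self, c.hq_ne hjk]
      have e2 : -(2 / q) * q = -2 := by field_simp
      have e3 : -(2 / q) * (q / 2) = -1 := by field_simp
      rw [e2, e3]
      module
    · have e1 : ⁅⁅-θ (x j0), x j⁆, x k⁆ = 0 := by
        have h3 := (f.wE j0 j (f.w j)).lie (f.w k)
        exact h3.eq_zero (c.hB.not_three (Ne.symm hj) (Ne.symm hk)).1 (c.hB.not_three (Ne.symm hj) (Ne.symm hk)).2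
      rw [e1, lie_zero, add_zero, F_ne hk]

end Fr

/-- A frame exists. -/
theorem exists_scale (c : Ctx θ b A τ B q) {φ : Module.Dual ℝ A} {x : L} (hx : Wv A φ x) (hx0 : x ≠ 0) {s : ℝ} (hs : 0 < s) :
    ∃ t : ℝ, t ≠ 0 ∧ killingForm ℝ L (t • x) (θ (t • x)) = -s := by
  have hp := pos c.h hx0
  refine ⟨Real.sqrt (s / -killingForm ℝ L x (θ x)), (Real.sqrt_pos.2 (by positivity)).ne', ?_⟩
  rw [map_smul, map_smul, map_smul, LinearMap.smul_apply, smul_eq_mul, smul_eq_mul, ← mul_assoc, Real.mul_self_sqrt (by positivity)]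
  have : killingForm ℝ L x (θ x) ≠ 0 := by
    intro h0
    rw [h0] at hp
    norm_num at hp
  field_simp

theorem exists_fr (c : Ctx θ b A τ B q) : ∃ x : Fin r → L, Fr c x := by
  have hq := c.qpos
  have hBr : ∀ j, B j ∈ rootsL A := fun j => by rw [c.hB]; exact Or.inl ⟨j, rfl⟩
  have hx : ∀ j, ∃ x : L, Wv A (B j) x ∧ killingForm ℝ L x (θ x) = -(2 / q) := by
    intro j
    obtain ⟨x, hx0, hx⟩ := (hBr j).2
    change Wv A (B j) x at hx
    obtain ⟨t, -, ht⟩ := exists_scale c hx hx0 (s := 2 / q) (by positivity)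
    exact ⟨t • x, hx.smul t, ht⟩
  choose x hx hxn using hx
  exact ⟨x, hx, hxn⟩

/-- Data with the consistency. -/
structure Pre (c : Ctx θ b A τ B q) (X : Fin r → ℍ[ℝ] →ₗ[ℝ] L) : Prop where
  w : ∀ j a, Wv A (B j) (X j a)
  n : ∀ j a a', killingForm ℝ L (X j a) (θ (X j a')) = -(2 / q) * (a * star a').re
  cn : ∀ j k, j ≠ k → ∀ a, ⁅X j a, ⁅-θ (X j 1), X k 1⁆⁆ = X k a

/-- The pair `(j, k)` is multiplicative. -/
def Mu (θ : L ≃ₗ⁅ℝ⁆ L) (X : Fin r → ℍ[ℝ] →ₗ[ℝ] L) (j k : Fin r) : Prop :=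
  ∀ a a', ⁅X j a, ⁅-θ (X j 1), X k a'⁆⁆ = X k (a * a')

namespace Pre

variable {c : Ctx θ b A τ B q} {X : Fin r → ℍ[ℝ] →ₗ[ℝ] L}

theorem fr (g : Pre c X) : Fr c (fun j => X j 1) where
  w j := g.w j 1
  n j := by
    change killingForm ℝ L (X j 1) (θ (X j 1)) = _
    rw [g.n, star_one, mul_one, Quaternion.re_one, mul_one]

theorem mu_A (g : Pre c X) {j k l : Fin r} (hjk : j ≠ k) (hjl : j ≠ l) (hkl : k ≠ l) (h : Mu θ X j k) : Mu θ X j l := by
  intro a a'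
  have wz : Wv A (B l - B k) ⁅-θ (X k 1), X l 1⁆ := g.fr.wE k l (g.w l 1)
  have e1 : ⁅X j a, ⁅-θ (X k 1), X l 1⁆⁆ = 0 := by
    have h3 := (g.w j a).lie wz
    rw [add_comm] at h3
    exact h3.eq_zero (c.hB.not_three hkl (Ne.symm hjk)).1 (c.hB.not_three hkl (Ne.symm hjk)).2
  have e2 : ⁅-θ (X j 1), ⁅-θ (X k 1), X l 1⁆⁆ = 0 := by
    have h3 := (g.fr.wy j).lie wz
    have e : -B j + (B l - B k) = -(B k - B l + B j) := by abel
    rw [e] at h3
    refine h3.eq_zero (fun h4 => (c.hB.not_three (Ne.symm hkl) (Ne.symm hjl)).1 ?_) (neg_ne_zero.2 (c.hB.not_three (Ne.symm hkl) (Ne.symm hjl)).2)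
    have := c.hB.neg h4
    rwa [neg_neg] at this
  have e3 : ⁅-θ (X j 1), X l a'⁆ = ⁅⁅-θ (X j 1), X k a'⁆, ⁅-θ (X k 1), X l 1⁆⁆ := by
    rw [← g.cn k l hkl a', leibniz_lie, e2, lie_zero, add_zero]
  rw [e3, leibniz_lie, e1, lie_zero, add_zero, h, g.cn k l hkl]

theorem mu_B (g : Pre c X) {j k : Fin r} (hjk : j ≠ k) (h : Mu θ X j k) : Mu θ X k j := by
  have hq := c.qpos
  have hre : ∀ a a' : ℍ[ℝ], a * a' = (2 * a.re) • a' - star a * a' := by
    intro a a'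
    have h2 : ((2 * a.re : ℝ) : ℍ[ℝ]) = a + star a := by
      rw [Quaternion.self_add_star]
      push_cast
      rfl
    rw [← Quaternion.coe_mul_eq_smul, h2]
    noncomm_ring
  have r2 : ∀ a a', ⁅YY θ X j a, X k a'⁆ = ⁅YY θ X j 1, X k (a * a')⁆ := by
    intro a a'
    have h1 := c.idI hjk (g.w j 1) (g.w j (star a)) (g.fr.wE j k (g.w k a'))
    rw [h, h, one_mul, g.n, one_mul, star_star] at h1
    have e2 : θ (X j (star a)) = -YY θ X j a := by rw [YY_apply, neg_neg]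
    have e3 : θ (X j 1) = -YY θ X j 1 := by rw [YY_one, neg_neg]
    rw [e2, e3, neg_lie, neg_lie, neg_neg] at h1
    have e4 : q * (-(2 / q) * a.re) = -(2 * a.re) := by field_simp
    rw [e4] at h1
    rw [hre a a', map_sub, map_smul, _root_.lie_sub, lie_smul, eq_sub_iff_add_eq, ← neg_inj, neg_add, h1, neg_smul]
  have tX : ∀ i a, θ (X i a) = -YY θ X i (star a) := fun i a => by rw [YY_apply, star_star, neg_neg]
  have tY : ∀ i a, θ (YY θ X i a) = -X i (star a) := fun i a => by rw [YY_apply, map_neg, c.h.invol]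
  -- `[Y k a, X j a'] = [Y k (a a'), X j 1]`
  have r4 : ∀ a a', ⁅YY θ X k a, X j a'⁆ = ⁅YY θ X k (a * a'), X j 1⁆ := by
    intro a a'
    have h1 := congrArg θ (r2 (star a') (star a))
    rw [LieEquiv.map_lie, LieEquiv.map_lie, tX, tX, tY, tY, star_star, star_star, star_one, star_mul, star_star, star_star, neg_lie,
      neg_lie, lie_neg, lie_neg, neg_neg, neg_neg, ← lie_skew, ← lie_skew (X j 1), neg_inj] at h1
    exact h1
  intro a a'
  have h1 := c.idI (Ne.symm hjk) (g.w k 1) (g.w k a) (g.fr.wE k j (g.w j a'))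
  have e3 : θ (X k 1) = -YY θ X k 1 := by rw [YY_one, neg_neg]
  rw [g.fr.yx (Ne.symm hjk) (g.w j a'), g.n, one_mul, Quaternion.re_star, tX k a, e3, neg_neg, neg_lie, neg_lie] at h1
  have e4 : q * (-(2 / q) * a.re) = -(2 * a.re) := by field_simp
  rw [e4, neg_smul, ← neg_add, neg_inj] at h1
  have h2 : ⁅YY θ X k 1, ⁅X k a, ⁅YY θ X k 1, X j a'⁆⁆⁆ = ⁅YY θ X k 1, X j (a * a')⁆ := by
    rw [hre a a', map_sub, map_smul, _root_.lie_sub, lie_smul, r4 1 (star a * a'), one_mul, ← r4 (star a) a', ← h1]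
    abel
  have h3 : ⁅X k 1, ⁅YY θ X k 1, ⁅X k a, ⁅YY θ X k 1, X j a'⁆⁆⁆⁆ = ⁅X k 1, ⁅YY θ X k 1, X j (a * a')⁆⁆ := by rw [h2]
  have w5 : Wv A (B j) ⁅X k a, ⁅YY θ X k 1, X j a'⁆⁆ := by
    have h6 := (g.w k a).lie (g.fr.wE k j (g.w j a'))
    rw [add_sub_cancel, ← YY_one] at h6
    exact h6
  rw [YY_one, g.fr.yx (Ne.symm hjk) (g.w j _)] at h3
  rw [YY_one] at w5
  rw [g.fr.yx (Ne.symm hjk) w5] at h3
  exact h3

theorem good (g : Pre c X) {j0 k0 : Fin r} (h0 : j0 ≠ k0) (h : Mu θ X j0 k0) : Good c X := by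
  have h1 : ∀ k, j0 ≠ k → Mu θ X j0 k := by
    intro k hk
    by_cases e : k0 = k
    · rw [← e]
      exact h
    · exact g.mu_A h0 hk e h
  have h2 : ∀ j k, j ≠ k → Mu θ X j k := by
    intro j k hjk
    by_cases hj : j0 = j
    · subst hj
      exact h1 k hjk
    · have h3 := g.mu_B hj (h1 j hj)
      by_cases hk : j0 = k
      · subst hk
        exact h3
      · exact g.mu_A (Ne.symm hj) hjk hk h3
  exact ⟨g.w, g.n, fun j k hjk => h2 j k hjk⟩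

end Pre

end Pool.Agent.Helper77.TZ4
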