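import Pool.Agent.Helper77.TZ2.Rel
import Pool.Agent.Helper77.TZ4.Dat

/-!
# Project TZ, quaternionic case: the relations

`κ` the Killing form, `X j a` of weight `β_j`, `a ∈ ℍ`, `κ(X j a, θ (X j b)) = -(2/q) Re (a b̄)`, `Y j a = -θ (X j ā)`.
-/

set_option autoImplicit false

open Matrix
open scoped Quaternion

namespace Pool.Agent.Helper77.TZ4

open Pool.Agent.Helper96.SA Pool.Agent.Helper96.TO Pool.Agent.Helper69.SLN Pool.Agent.Helper77.TZ2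

variable {L : Type} [LieRing L] [LieAlgebra ℝ L] {N : ℕ} {θ : L ≃ₗ⁅ℝ⁆ L} {b : Module.Basis (Fin N) ℝ L} {A : Submodule ℝ L}
  {r : ℕ} {τ : Module.Dual ℝ A ≃ₗ[ℝ] A} {B : Module.Basis (Fin r) ℝ (Module.Dual ℝ A)} {q : ℝ}

/-- The data `X j : ℍ → L`. -/
structure Good (c : Ctx θ b A τ B q) (X : Fin r → ℍ[ℝ] →ₗ[ℝ] L) : Prop where
  w : ∀ j a, Wv A (B j) (X j a)
  n : ∀ j a a', killingForm ℝ L (X j a) (θ (X j a')) = -(2 / q) * (a * star a').re
  r1 : ∀ j k, j ≠ k → ∀ a a', ⁅X j a, ⁅-θ (X j 1), X k a'⁆⁆ = X k (a * a')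

/-- `Y j a = -θ (X j ā)` -/
noncomputable def YY (θ : L ≃ₗ⁅ℝ⁆ L) (X : Fin r → ℍ[ℝ] →ₗ[ℝ] L) (j : Fin r) : ℍ[ℝ] →ₗ[ℝ] L where
  toFun a := -θ (X j (star a))
  map_add' a a' := by rw [star_add, map_add, map_add, neg_add]
  map_smul' t a := by
    rw [Quaternion.star_smul, map_smul, map_smul, smul_neg, RingHom.id_apply]

theorem YY_apply (θ : L ≃ₗ⁅ℝ⁆ L) (X : Fin r → ℍ[ℝ] →ₗ[ℝ] L) (j : Fin r) (a : ℍ[ℝ]) :
    YY θ X j a = -θ (X j (star a)) := rfl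

theorem YY_one (θ : L ≃ₗ⁅ℝ⁆ L) (X : Fin r → ℍ[ℝ] →ₗ[ℝ] L) (j : Fin r) : YY θ X j 1 = -θ (X j 1) := by
  rw [YY_apply, star_one]

namespace Good

variable {c : Ctx θ b A τ B q} {X : Fin r → ℍ[ℝ] →ₗ[ℝ] L}

theorem wY (g : Good c X) (j : Fin r) (a : ℍ[ℝ]) : Wv A (-B j) (YY θ X j a) := by
  rw [YY_apply]
  exact ((g.w j _).theta c.hA).neg

theorem xx (g : Good c X) (j k : Fin r) (a a' : ℍ[ℝ]) : ⁅X j a, X k a'⁆ = 0 :=
  ((g.w j a).lie (g.w k a')).eq_zero (c.hB.not_add j k).1 (c.hB.not_add j k).2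

theorem yy (g : Good c X) (j k : Fin r) (a a' : ℍ[ℝ]) : ⁅YY θ X j a, YY θ X k a'⁆ = 0 := by
  have h3 := (g.wY j a).lie (g.wY k a')
  rw [← neg_add] at h3
  refine h3.eq_zero (fun h4 => (c.hB.not_add j k).1 ?_) (neg_ne_zero.2 (c.hB.not_add j k).2)
  have := c.hB.neg h4
  rwa [neg_neg] at this

theorem wE (g : Good c X) (j k : Fin r) (a a' : ℍ[ℝ]) : Wv A (B k - B j) ⁅YY θ X j a, X k a'⁆ := by
  have := (g.wY j a).lie (g.w k a')
  rwa [neg_add_eq_sub] at this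

theorem r1' (g : Good c X) {j k : Fin r} (hjk : j ≠ k) (a a' : ℍ[ℝ]) : ⁅X j a, ⁅YY θ X j 1, X k a'⁆⁆ = X k (a * a') := by
  rw [YY_one]
  exact g.r1 j k hjk a a'

theorem r2 (g : Good c X) {j k : Fin r} (hjk : j ≠ k) (a a' : ℍ[ℝ]) : ⁅YY θ X j a, X k a'⁆ = ⁅YY θ X j 1, X k (a * a')⁆ := by
  have hq := c.qpos
  have h1 := c.idI hjk (g.w j 1) (g.w j (star a)) (g.wE j k 1 a')
  rw [g.r1' hjk, g.r1' hjk, one_mul, g.n, one_mul, star_star] at h1
  have e1 : a * a' = (2 * a.re) • a' - star a * a' := by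
    have h2 : ((2 * a.re : ℝ) : ℍ[ℝ]) = a + star a := by
      rw [Quaternion.self_add_star]
      push_cast
      rfl
    rw [← Quaternion.coe_mul_eq_smul, h2]
    noncomm_ring
  have e2 : θ (X j (star a)) = -YY θ X j a := by rw [YY_apply, neg_neg]
  have e3 : θ (X j 1) = -YY θ X j 1 := by rw [YY_one, neg_neg]
  rw [e2, e3, neg_lie, neg_lie] at h1
  have e4 : q * (-(2 / q) * a.re) = -(2 * a.re) := by field_simp
  rw [e4] at h1
  rw [e1, map_sub, map_smul, _root_.lie_sub, lie_smul, eq_sub_iff_add_eq, ← neg_inj, neg_add, h1, neg_smul]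

theorem theta_X (g : Good c X) (j : Fin r) (a : ℍ[ℝ]) : θ (X j a) = -YY θ X j (star a) := by
  rw [YY_apply, star_star, neg_neg]

theorem theta_Y (g : Good c X) (j : Fin r) (a : ℍ[ℝ]) : θ (YY θ X j a) = -X j (star a) := by
  rw [YY_apply, map_neg, c.h.invol]

theorem r3 (g : Good c X) {j l : Fin r} (hjl : l ≠ j) (a a' : ℍ[ℝ]) : ⁅⁅YY θ X l 1, X j a⁆, YY θ X j a'⁆ = YY θ X l (a * a') := by
  have h1 := congrArg θ (g.r1' (j := j) (k := l) hjl.symm (star a') (star a))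
  rw [LieEquiv.map_lie, LieEquiv.map_lie, g.theta_X, g.theta_X, g.theta_X, g.theta_Y, star_one, star_star, star_star,
    neg_lie, neg_lie, lie_neg, neg_neg, lie_neg, lie_neg, neg_inj, star_mul, star_star, star_star,
    ← lie_skew (X j 1), g.r2 hjl, mul_one, lie_neg, lie_skew] at h1
  exact h1

/-- `j = k ≠ l` -/
theorem yxx_a (g : Good c X) {j l : Fin r} (hjl : j ≠ l) (a a' d : ℍ[ℝ]) : ⁅⁅YY θ X j a, X j a'⁆, X l d⁆ = -X l (a' * a * d) := by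
  rw [lie_lie, g.xx, lie_zero, zero_sub, g.r2 hjl, g.r1' hjl, mul_assoc]

theorem yxy_a (g : Good c X) {j l : Fin r} (hjl : j ≠ l) (a a' d : ℍ[ℝ]) : ⁅⁅YY θ X j a, X j a'⁆, YY θ X l d⁆ = YY θ X l (d * a' * a) := by
  rw [lie_lie, g.yy, lie_zero, sub_zero, ← lie_skew (X j a'), g.r2 hjl.symm, lie_neg, lie_skew, g.r3 hjl.symm]

theorem yxx_b (g : Good c X) {j l : Fin r} (hjl : j ≠ l) (a a' d : ℍ[ℝ]) : ⁅⁅YY θ X j a, X j a'⁆, X j d⁆ = -X j (d * a * a') - X j (a' * a * d) := by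
  have e1 : ⁅X j a', ⁅YY θ X l 1, X j d⁆⁆ = 0 := by
    have h3 := (g.w j a').lie (g.wE l j 1 d)
    rw [add_comm] at h3
    exact h3.eq_zero (c.hB.not_three hjl.symm hjl.symm).1 (c.hB.not_three hjl.symm hjl.symm).2
  have e2 : ⁅⁅YY θ X j a, X j a'⁆, ⁅YY θ X l 1, X j d⁆⁆ = -⁅YY θ X l 1, X j (d * a * a')⁆ := by
    rw [lie_lie, e1, lie_zero, zero_sub, ← lie_skew (YY θ X j a), g.r3 hjl.symm, lie_neg, neg_neg, ← lie_skew, g.r2 hjl.symm]
  have e3 : X j d = ⁅X l 1, ⁅YY θ X l 1, X j d⁆⁆ := by rw [g.r1' hjl.symm, one_mul]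
  rw [e3, leibniz_lie, g.yxx_a hjl, e2, neg_lie, lie_neg, g.r1' hjl.symm, g.r1' hjl.symm, mul_one, one_mul, sub_eq_add_neg, add_comm]

theorem yxy_b (g : Good c X) {j l : Fin r} (hjl : j ≠ l) (a a' d : ℍ[ℝ]) : ⁅⁅YY θ X j a, X j a'⁆, YY θ X j d⁆ = YY θ X j (a * a' * d) + YY θ X j (d * a' * a) := by
  have e1 : ⁅YY θ X j a, ⁅YY θ X j 1, X l 1⁆⁆ = 0 := by
    have h3 := (g.wY j a).lie (g.wE j l 1 1)
    rw [neg_add_eq_sub] at h3
    exact h3.eq_zero (c.hB.not_sub hjl).1 (c.hB.not_sub hjl).2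
  have e2 : ⁅⁅YY θ X j a, X j a'⁆, ⁅YY θ X j 1, X l 1⁆⁆ = ⁅YY θ X j 1, X l (a * a')⁆ := by
    rw [lie_lie, e1, lie_zero, sub_zero, g.r1' hjl, mul_one, g.r2 hjl]
  have e3 : YY θ X j d = ⁅⁅YY θ X j 1, X l 1⁆, YY θ X l d⁆ := by rw [g.r3 hjl, one_mul]
  rw [e3, leibniz_lie, e2, g.yxy_a hjl, g.r3 hjl, g.r3 hjl, one_mul]

theorem yxx (g : Good c X) (hr : 2 ≤ r) (j k l : Fin r) (a a' d : ℍ[ℝ]) : ⁅⁅YY θ X j a, X k a'⁆, X l d⁆ =
    -(if j = l then X k (d * a * a') else 0) - (if j = k then X l (a' * a * d) else 0) := by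
  by_cases hjk : j = k
  · subst hjk
    rw [if_pos rfl]
    by_cases hjl : j = l
    · subst hjl
      rw [if_pos rfl]
      obtain ⟨m, hm⟩ : ∃ m : Fin r, j ≠ m := by
        have : Nontrivial (Fin r) := Fin.nontrivial_iff_two_le.2 hr
        obtain ⟨m, hm⟩ := exists_ne j
        exact ⟨m, hm.symm⟩
      exact g.yxx_b hm a a' d
    · rw [if_neg hjl, neg_zero, zero_sub]
      exact g.yxx_a hjl a a' d
  · rw [if_neg hjk, sub_zero]
    by_cases hjl : j = l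
    · subst hjl
      rw [if_pos rfl, ← lie_skew, g.r2 hjk, g.r1' hjk, mul_assoc]
    · rw [if_neg hjl, neg_zero]
      have h3 := (g.wE j k a a').lie (g.w l d)
      exact h3.eq_zero (c.hB.not_three hjk hjl).1 (c.hB.not_three hjk hjl).2

theorem yxy (g : Good c X) (hr : 2 ≤ r) (j k l : Fin r) (a a' d : ℍ[ℝ]) : ⁅⁅YY θ X j a, X k a'⁆, YY θ X l d⁆ =
    (if k = l then YY θ X j (a * a' * d) else 0) + (if j = k then YY θ X l (d * a' * a) else 0) := by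
  by_cases hjk : j = k
  · subst hjk
    rw [if_pos rfl]
    by_cases hjl : j = l
    · subst hjl
      rw [if_pos rfl]
      obtain ⟨m, hm⟩ : ∃ m : Fin r, j ≠ m := by
        have : Nontrivial (Fin r) := Fin.nontrivial_iff_two_le.2 hr
        obtain ⟨m, hm⟩ := exists_ne j
        exact ⟨m, hm.symm⟩
      exact g.yxy_b hm a a' d
    · rw [if_neg hjl, zero_add]
      exact g.yxy_a hjl a a' d
  · rw [if_neg hjk, add_zero]
    by_cases hkl : k = l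
    · subst hkl
      rw [if_pos rfl, g.r2 hjk, g.r3 hjk]
    · rw [if_neg hkl]
      have h3 := (g.wE j k a a').lie (g.wY l d)
      have e : B k - B j + -B l = -(B j - B k + B l) := by abel
      rw [e] at h3
      refine h3.eq_zero (fun h4 => (c.hB.not_three (fun h => hjk h.symm) hkl).1 ?_) (neg_ne_zero.2 (c.hB.not_three (fun h => hjk h.symm) hkl).2)
      have := c.hB.neg h4
      rwa [neg_neg] at this

theorem nx (g : Good c X) (j : Fin r) (a : ℍ[ℝ]) (h : X j a = 0) : a = 0 := by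
  have hq := c.qpos
  have h1 := g.n j a a
  rw [h, map_zero, LinearMap.zero_apply, Quaternion.self_mul_star, Quaternion.re_coe] at h1
  have h2 : (2 / q) ≠ 0 := by positivity
  have h3 := (mul_eq_zero.1 h1.symm).resolve_left (neg_ne_zero.2 h2)
  exact Quaternion.normSq_eq_zero.1 h3

theorem ny (g : Good c X) (j : Fin r) (a : ℍ[ℝ]) (h : YY θ X j a = 0) : a = 0 := by
  rw [YY_apply, neg_eq_zero] at h
  have h1 : X j (star a) = 0 := by
    rw [← c.h.invol (X j (star a)), h, map_zero]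
  have h2 := g.nx j _ h1
  exact star_eq_zero.1 h2

end Good

end Pool.Agent.Helper77.TZ4
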